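import Mathlib
import Pool.Agent.Results.MP_be1fae_nt.SolutionsByBases
import Pool.Agent.Results.MP_509488_nt.SolutionCount
import Pool.Agent.Y854.GM.Win

/-!
# All S-solutions of the generalised Fermat equation, counted by their bases

Let `S` be a finite set of primes and consider ALL `S`-solutions of `a x ^ p + b y ^ q = c z ^ r`
(`S`-unit coefficients, free exponents, no reducedness condition on the bases).

* Unconditional: for every `ε > 0` there is `R` such that at most `C Y ^ ε` triples of bases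
  `(x, y, z)` with `|x|, |y|, |z| ≤ Y` belong to solutions with large exponents (all `≥ 2` and one
  `≥ R`, or two `≥ R`); and for a sequence `v ≥ 1` with exponent of convergence at most `τ`
  and `θ < 1`, for all `α > 0` outside ONE set of Hausdorff dimension at most `τ / (1 - θ)` and every
  `S` there is `R` such that for all large `k` no `S`-solution with large exponents has
  `|max (|x|, |y|, |z|) - α v_k| ≤ v_k ^ θ`.
* With the published theorem of Darmon and Granville (finitely many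
  coprime solutions for FIXED exponents and FIXED coefficients) both hold for all solutions with
  `1/p + 1/q + 1/r < 1`.
-/

set_option autoImplicit false

open Filter Topology
open scoped ENNReal

namespace Pool.Agent.Results.MP_be1fae_nt.AllSolutionsWithDG

open SolutionsByBases (Solution Bases TwoLarge OneLarge ByBases)
open MP_509488_nt.SolutionCount (DarmonGranville SPower)

/-- `(x, y, z)` are the bases of an `S`-solution whose exponents satisfy `Q`. -/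
def IsBases (S : Finset ℕ) (Q : ℕ → ℕ → ℕ → Prop) (x y z : ℤ) : Prop :=
  ∃ (a b c : ℤ) (p q r : ℕ), Solution a b c x y z p q r ∧
    (∀ l : ℕ, l.Prime → (l : ℤ) ∣ a * b * c → l ∈ S) ∧ Q p q r

/-- The triples of bases `(x, y, z)` with `|x|, |y|, |z| ≤ Y` of the `S`-solutions whose exponents
satisfy `Q`. -/
def Triples (S : Finset ℕ) (Q : ℕ → ℕ → ℕ → Prop) (Y : ℝ) : Set (ℤ × ℤ × ℤ) :=
  {t | IsBases S Q t.1 t.2.1 t.2.2 ∧ Bases Y t.1 t.2.1 t.2.2}

/-- The triples of terms of the `S`-solutions with `|x|, |y|, |z| ≤ Y` whose exponents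
satisfy `Q`. -/
def Terms (S : Finset ℕ) (Q : ℕ → ℕ → ℕ → Prop) (Y : ℝ) : Set (ℤ × ℤ × ℤ) :=
  {t | ∃ (a b c x y z : ℤ) (p q r : ℕ), Solution a b c x y z p q r ∧
    t = (a * x ^ p, b * y ^ q, c * z ^ r) ∧
    (∀ l : ℕ, l.Prime → (l : ℤ) ∣ a * b * c → l ∈ S) ∧ Q p q r ∧ Bases Y x y z}

/-- Large exponents: two are `≥ R`, or all are `≥ 2` and one is `≥ R`. -/
def Large (R p q r : ℕ) : Prop := TwoLarge R p q r ∨ OneLarge R p q r

/-- All exponents: `1/p + 1/q + 1/r < 1`. -/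
def Hyp (p q r : ℕ) : Prop := (1 : ℚ) / p + 1 / q + 1 / r < 1

/-- the exponent of convergence of the sequence `v` is at most `τ` -/
def ExpLe (v : ℕ → ℝ) (τ : ℝ) : Prop := ∀ t : ℝ, τ < t → Summable (fun n : ℕ => (v n) ^ (-t))

/-! ### The bases are determined by the terms up to few choices -/

open Classical in
/-- a prime outside `S` which divides `A`, if there is one -/
noncomputable def ell (S : Finset ℕ) (A : ℤ) : ℕ :=
  if h : ∃ l : ℕ, l.Prime ∧ l ∉ S ∧ (l : ℤ) ∣ A then h.choose else 0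

/-- the sign and some valuations of `x` -/
noncomputable def code (S : Finset ℕ) (A x : ℤ) : Bool × (S → ℕ) × ℕ :=
  (decide (0 < x), fun l => x.natAbs.factorization l, x.natAbs.factorization (ell S A))

theorem val_eq {S : Finset ℕ} {A a x : ℤ} {p m : ℕ} (hA : A ≠ 0) (h : a * x ^ p = A)
    (ha : ∀ l : ℕ, l.Prime → (l : ℤ) ∣ a → l ∈ S) (hm : m.Prime) (hmS : m ∉ S) :
    A.natAbs.factorization m = p * x.natAbs.factorization m := by
  have ha0 : a ≠ 0 := by rintro rfl; exact hA (by rw [← h, zero_mul])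
  have hx0 : x ^ p ≠ 0 := by intro h0; exact hA (by rw [← h, h0, mul_zero])
  have hx0' : x.natAbs ^ p ≠ 0 := by rw [← Int.natAbs_pow]; exact Int.natAbs_ne_zero.2 hx0
  rw [← h, Int.natAbs_mul, Int.natAbs_pow, Nat.factorization_mul (Int.natAbs_ne_zero.2 ha0) hx0',
    Nat.factorization_pow]
  have h1 : a.natAbs.factorization m = 0 := by
    apply Nat.factorization_eq_zero_of_not_dvd
    intro hd
    exact hmS (ha m hm (Int.natCast_dvd.2 hd))
  simp [h1]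

theorem code_inj {S : Finset ℕ} {A a a' x x' : ℤ} {p p' : ℕ} (hA : A ≠ 0) (hp : 0 < p)
    (hp' : 0 < p') (h : a * x ^ p = A) (h' : a' * x' ^ p' = A)
    (ha : ∀ l : ℕ, l.Prime → (l : ℤ) ∣ a → l ∈ S) (ha' : ∀ l : ℕ, l.Prime → (l : ℤ) ∣ a' → l ∈ S)
    (hc : code S A x = code S A x') : x = x' := by
  have hx0 : x ≠ 0 := by
    rintro rfl
    exact hA (by rw [← h, zero_pow hp.ne', mul_zero])
  have hx0' : x' ≠ 0 := by
    rintro rfl
    exact hA (by rw [← h', zero_pow hp'.ne', mul_zero])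
  simp only [code, Prod.mk.injEq] at hc
  obtain ⟨hs, hS, hl⟩ := hc
  have habs : x.natAbs = x'.natAbs := by
    apply Nat.eq_of_factorization_eq (Int.natAbs_ne_zero.2 hx0) (Int.natAbs_ne_zero.2 hx0')
    intro m
    by_cases hm : m.Prime
    · by_cases hmS : m ∈ S
      · exact congrFun hS ⟨m, hmS⟩
      · have e1 := val_eq hA h ha hm hmS
        have e2 := val_eq hA h' ha' hm hmS
        by_cases hv : A.natAbs.factorization m = 0
        · rw [hv] at e1 e2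
          have f1 : x.natAbs.factorization m = 0 := by
            rcases Nat.mul_eq_zero.1 e1.symm with h0 | h0
            · omega
            · exact h0
          have f2 : x'.natAbs.factorization m = 0 := by
            rcases Nat.mul_eq_zero.1 e2.symm with h0 | h0
            · omega
            · exact h0
          rw [f1, f2]
        · have hex : ∃ l : ℕ, l.Prime ∧ l ∉ S ∧ (l : ℤ) ∣ A :=
            ⟨m, hm, hmS, Int.natCast_dvd.2 (Nat.dvd_of_factorization_pos hv)⟩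
          have hell : (ell S A).Prime ∧ ell S A ∉ S ∧ ((ell S A : ℕ) : ℤ) ∣ A := by
            rw [ell, dif_pos hex]
            exact hex.choose_spec
          have g1 := val_eq hA h ha hell.1 hell.2.1
          have g2 := val_eq hA h' ha' hell.1 hell.2.1
          have g3 : 0 < A.natAbs.factorization (ell S A) :=
            hell.1.factorization_pos_of_dvd (Int.natAbs_ne_zero.2 hA) (Int.natCast_dvd.1 hell.2.2)
          have hpp : p = p' := by
            rw [hl] at g1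
            have g4 : 0 < x'.natAbs.factorization (ell S A) := by
              rw [g2] at g3
              exact Nat.pos_of_mul_pos_left g3
            exact Nat.eq_of_mul_eq_mul_right g4 (g1.symm.trans g2)
          rw [← hpp] at e2
          exact Nat.eq_of_mul_eq_mul_left hp (e1.symm.trans e2)
    · rw [Nat.factorization_eq_zero_of_not_prime _ hm, Nat.factorization_eq_zero_of_not_prime _ hm]
  rcases Int.natAbs_eq_natAbs_iff.1 habs with h0 | h0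
  · exact h0
  · exfalso
    rw [decide_eq_decide] at hs
    subst h0
    omega

/-- the possible codes -/
def codes (S : Finset ℕ) (L : ℕ) : Finset (Bool × (S → ℕ) × ℕ) :=
  Finset.univ ×ˢ (Fintype.piFinset (fun _ : S => Finset.range (L + 1))) ×ˢ Finset.range (L + 1)

theorem card_codes (S : Finset ℕ) (L : ℕ) :
    (codes S L).card = 2 * (L + 1) ^ (S.card + 1) := by
  rw [codes, Finset.card_product, Finset.card_product, Fintype.card_piFinset, Finset.prod_const,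
    Finset.card_range, pow_succ]
  simp

theorem fact_le {x : ℤ} {Y : ℝ} (hx : x ≠ 0) (hY : |(x : ℝ)| ≤ Y) (m : ℕ) :
    x.natAbs.factorization m ≤ Nat.log 2 ⌊Y⌋₊ := by
  have h1 : x.natAbs ≤ ⌊Y⌋₊ := by
    apply Nat.le_floor
    rw [Nat.cast_natAbs, Int.cast_abs]
    exact hY
  have h2 : x.natAbs ≠ 0 := Int.natAbs_ne_zero.2 hx
  refine Nat.le_log_of_pow_le (by norm_num) (le_trans ?_ h1)
  by_cases hm : m.Prime
  · refine le_trans (Nat.pow_le_pow_left hm.two_le _) ?_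
    exact Nat.le_of_dvd (Nat.pos_of_ne_zero h2) (Nat.ordProj_dvd _ _)
  · rw [Nat.factorization_eq_zero_of_not_prime _ hm, pow_zero]
    exact Nat.pos_of_ne_zero h2

theorem code_mem (S : Finset ℕ) (A : ℤ) {x : ℤ} {Y : ℝ} (hx : x ≠ 0) (hY : |(x : ℝ)| ≤ Y) :
    code S A x ∈ codes S (Nat.log 2 ⌊Y⌋₊) := by
  simp only [code, codes, Finset.mem_product, Finset.mem_univ, true_and, Fintype.mem_piFinset,
    Finset.mem_range]
  exact ⟨fun l => Nat.lt_succ_of_le (fact_le hx hY _), Nat.lt_succ_of_le (fact_le hx hY _)⟩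

open Classical in
theorem triples_le (S : Finset ℕ) (Q : ℕ → ℕ → ℕ → Prop) (Y : ℝ) (hfin : (Terms S Q Y).Finite) :
    (Triples S Q Y).Finite ∧
    (Triples S Q Y).ncard ≤
      (Terms S Q Y).ncard * (2 * (Nat.log 2 ⌊Y⌋₊ + 1) ^ (S.card + 1)) ^ 3 := by
  set L := Nat.log 2 ⌊Y⌋₊ with hL
  have hch : ∀ t : ℤ × ℤ × ℤ, ∃ e : (ℤ × ℤ × ℤ) × (ℕ × ℕ × ℕ), t ∈ Triples S Q Y →
      Solution e.1.1 e.1.2.1 e.1.2.2 t.1 t.2.1 t.2.2 e.2.1 e.2.2.1 e.2.2.2 ∧
      (∀ l : ℕ, l.Prime → (l : ℤ) ∣ e.1.1 * e.1.2.1 * e.1.2.2 → l ∈ S) ∧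
      Q e.2.1 e.2.2.1 e.2.2.2 := by
    intro t
    by_cases h : t ∈ Triples S Q Y
    · obtain ⟨⟨a, b, c, p, q, r, h1, h2, h3⟩, -⟩ := h
      exact ⟨((a, b, c), (p, q, r)), fun _ => ⟨h1, h2, h3⟩⟩
    · exact ⟨((0, 0, 0), (0, 0, 0)), fun h' => absurd h' h⟩
  choose e he using hch
  set T : ℤ × ℤ × ℤ → ℤ × ℤ × ℤ := fun t =>
    ((e t).1.1 * t.1 ^ (e t).2.1, (e t).1.2.1 * t.2.1 ^ (e t).2.2.1,
      (e t).1.2.2 * t.2.2 ^ (e t).2.2.2) with hT
  set F : ℤ × ℤ × ℤ → (ℤ × ℤ × ℤ) × ((Bool × (S → ℕ) × ℕ) × (Bool × (S → ℕ) × ℕ) ×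
      (Bool × (S → ℕ) × ℕ)) := fun t =>
    (T t, code S (T t).1 t.1, code S (T t).2.1 t.2.1, code S (T t).2.2 t.2.2) with hF
  have hmaps : ∀ t ∈ Triples S Q Y, F t ∈ ((hfin.toFinset ×ˢ (codes S L ×ˢ codes S L ×ˢ codes S L) :
      Finset _) : Set _) := by
    intro t ht
    obtain ⟨hs, hSl, hQ⟩ := he t ht
    have hB := ht.2
    have hs' := hs
    obtain ⟨heq, ha0, hb0, hc0, hx0, hy0, hz0, hp, hq, hr, hgcd⟩ := hs'
    simp only [hF, Finset.coe_product, Set.mem_prod, Finset.mem_coe, Set.Finite.coe_toFinset]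
    exact ⟨⟨_, _, _, _, _, _, _, _, _, hs, rfl, hSl, hQ, hB⟩, code_mem S _ hx0 hB.1,
      code_mem S _ hy0 hB.2.1, code_mem S _ hz0 hB.2.2⟩
  have hinj : Set.InjOn F (Triples S Q Y) := by
    intro t ht t' ht' heq
    obtain ⟨hs, hSl, -⟩ := he t ht
    obtain ⟨hs', hSl', -⟩ := he t' ht'
    obtain ⟨-, ha0, hb0, hc0, hx0, hy0, hz0, hp, hq, hr, -⟩ := hs
    obtain ⟨-, ha0', hb0', hc0', hx0', hy0', hz0', hp', hq', hr', -⟩ := hs'
    simp only [hF, Prod.mk.injEq] at heq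
    obtain ⟨hTT, c1, c2, c3⟩ := heq
    rw [← hTT] at c1 c2 c3
    have t1 : (T t).1 = (e t').1.1 * t'.1 ^ (e t').2.1 := by rw [hTT]
    have t2 : (T t).2.1 = (e t').1.2.1 * t'.2.1 ^ (e t').2.2.1 := by rw [hTT]
    have t3 : (T t).2.2 = (e t').1.2.2 * t'.2.2 ^ (e t').2.2.2 := by rw [hTT]
    have g1 : t.1 = t'.1 := code_inj (mul_ne_zero ha0 (pow_ne_zero _ hx0)) hp hp' rfl t1.symm
      (fun l hl hd => hSl l hl ((hd.mul_right _).mul_right _))
      (fun l hl hd => hSl' l hl ((hd.mul_right _).mul_right _)) c1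
    have g2 : t.2.1 = t'.2.1 := code_inj (mul_ne_zero hb0 (pow_ne_zero _ hy0)) hq hq' rfl t2.symm
      (fun l hl hd => hSl l hl ((hd.mul_left _).mul_right _))
      (fun l hl hd => hSl' l hl ((hd.mul_left _).mul_right _)) c2
    have g3 : t.2.2 = t'.2.2 := code_inj (mul_ne_zero hc0 (pow_ne_zero _ hz0)) hr hr' rfl t3.symm
      (fun l hl hd => hSl l hl (hd.mul_left _))
      (fun l hl hd => hSl' l hl (hd.mul_left _)) c3
    exact Prod.ext g1 (Prod.ext g2 g3)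
  have hfinT : (Triples S Q Y).Finite :=
    Set.Finite.of_injOn hmaps hinj (Finset.finite_toSet _)
  refine ⟨hfinT, ?_⟩
  have h1 := Set.ncard_le_ncard_of_injOn F hmaps hinj (Finset.finite_toSet _)
  rw [Set.ncard_coe_finset, Finset.card_product, Finset.card_product, Finset.card_product,
    card_codes, ← Set.ncard_eq_toFinset_card _ hfin] at h1
  calc (Triples S Q Y).ncard ≤ _ := h1
    _ = (Terms S Q Y).ncard * (2 * (L + 1) ^ (S.card + 1)) ^ 3 := by ring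

/-- the polylogarithmic factor -/
theorem polylog (κ : ℕ) {ε : ℝ} (hε : 0 < ε) : ∃ D : ℝ, 0 < D ∧ ∀ Y : ℝ, 1 ≤ Y →
    (((2 * (Nat.log 2 ⌊Y⌋₊ + 1) ^ (κ + 1)) ^ 3 : ℕ) : ℝ) ≤ D * Y ^ ε := by
  set δ : ℝ := ε / (3 * (κ + 1)) with hδ
  have hκ : (0 : ℝ) < κ + 1 := by positivity
  have hδ0 : 0 < δ := by positivity
  have hl2 : 0 < Real.log 2 := Real.log_pos (by norm_num)
  refine ⟨(2 * (1 / (δ * Real.log 2) + 1) ^ (κ + 1)) ^ 3, by positivity, fun Y hY => ?_⟩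
  have hY0 : 0 < Y := by linarith
  have hfl : 1 ≤ ⌊Y⌋₊ := Nat.le_floor (by exact_mod_cast hY)
  have hpow : ((2 : ℝ)) ^ (Nat.log 2 ⌊Y⌋₊) ≤ Y := by
    have h1 : 2 ^ (Nat.log 2 ⌊Y⌋₊) ≤ ⌊Y⌋₊ := Nat.pow_log_le_self 2 (by omega)
    have h2 : ((2 : ℝ)) ^ (Nat.log 2 ⌊Y⌋₊) ≤ (⌊Y⌋₊ : ℝ) := by exact_mod_cast h1
    exact h2.trans (Nat.floor_le hY0.le)
  have h3 : (Nat.log 2 ⌊Y⌋₊ : ℝ) * Real.log 2 ≤ Y ^ δ / δ := by
    have h4 := Real.log_le_log (by positivity) hpow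
    rw [Real.log_pow] at h4
    exact h4.trans (Real.log_le_rpow_div hY0.le hδ0)
  have h5 : (Nat.log 2 ⌊Y⌋₊ : ℝ) + 1 ≤ (1 / (δ * Real.log 2) + 1) * Y ^ δ := by
    have h6 : 1 ≤ Y ^ δ := Real.one_le_rpow hY hδ0.le
    have h7 : (Nat.log 2 ⌊Y⌋₊ : ℝ) ≤ (1 / (δ * Real.log 2)) * Y ^ δ := by
      rw [one_div, ← div_eq_inv_mul, le_div_iff₀ (by positivity)]
      rw [le_div_iff₀ hδ0] at h3
      nlinarith
    nlinarith
  push_cast
  calc (2 * ((Nat.log 2 ⌊Y⌋₊ : ℝ) + 1) ^ (κ + 1)) ^ 3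
      ≤ (2 * ((1 / (δ * Real.log 2) + 1) * Y ^ δ) ^ (κ + 1)) ^ 3 := by
        gcongr
    _ = (2 * (1 / (δ * Real.log 2) + 1) ^ (κ + 1)) ^ 3 * ((Y ^ δ) ^ (κ + 1)) ^ 3 := by
        rw [mul_pow (1 / (δ * Real.log 2) + 1) (Y ^ δ) (κ + 1), ← mul_assoc, mul_pow]
    _ = (2 * (1 / (δ * Real.log 2) + 1) ^ (κ + 1)) ^ 3 * Y ^ ε := by
        congr 1
        rw [← pow_mul, ← Real.rpow_natCast, ← Real.rpow_mul hY0.le]
        congr 1
        push_cast
        rw [hδ]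
        field_simp

/-- From the count of the terms to the count of the bases. -/
theorem triples_of_terms (S : Finset ℕ) (Q : ℕ → ℕ → ℕ → Prop) {ε : ℝ} (hε : 0 < ε)
    (h : ∃ C : ℝ, ∀ Y : ℝ, 1 ≤ Y →
      (Terms S Q Y).Finite ∧ ((Terms S Q Y).ncard : ℝ) ≤ C * Y ^ (ε / 2)) :
    ∃ C : ℝ, ∀ Y : ℝ, 1 ≤ Y →
      (Triples S Q Y).Finite ∧ ((Triples S Q Y).ncard : ℝ) ≤ C * Y ^ ε := by
  obtain ⟨C, hC⟩ := h
  obtain ⟨D, hD, hD1⟩ := polylog S.card (ε := ε / 2) (by positivity)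
  refine ⟨C * D, fun Y hY => ?_⟩
  obtain ⟨h1, h2⟩ := hC Y hY
  obtain ⟨h3, h4⟩ := triples_le S Q Y h1
  refine ⟨h3, ?_⟩
  have hY0 : 0 < Y := by linarith
  have h5 : ((Triples S Q Y).ncard : ℝ) ≤ ((Terms S Q Y).ncard : ℝ) *
      (((2 * (Nat.log 2 ⌊Y⌋₊ + 1) ^ (S.card + 1)) ^ 3 : ℕ) : ℝ) := by exact_mod_cast h4
  have h6 : (0 : ℝ) ≤ C * Y ^ (ε / 2) := (Nat.cast_nonneg _).trans h2
  calc ((Triples S Q Y).ncard : ℝ) ≤ _ := h5
    _ ≤ (C * Y ^ (ε / 2)) * (D * Y ^ (ε / 2)) :=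
        mul_le_mul h2 (hD1 Y hY) (Nat.cast_nonneg _) h6
    _ = C * D * Y ^ ε := by
        have : Y ^ ε = Y ^ (ε / 2) * Y ^ (ε / 2) := by
          rw [← Real.rpow_add hY0]
          congr 1
          ring
        rw [this]
        ring

/-! ### Windows -/

/-- the largest bases of the `S`-solutions whose exponents satisfy `Q` -/
def Tops (S : Finset ℕ) (Q : ℕ → ℕ → ℕ → Prop) : Set ℕ :=
  {m | ∃ x y z : ℤ, IsBases S Q x y z ∧ m = max (max x.natAbs y.natAbs) z.natAbs}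

open Classical in
theorem card_tops (S : Finset ℕ) (Q : ℕ → ℕ → ℕ → Prop) (X : ℕ)
    (hfin : (Triples S Q X).Finite) :
    ((Finset.Ioc 0 X).filter (fun m => m ∈ Tops S Q)).card ≤ (Triples S Q X).ncard := by
  have hsub : (((Finset.Ioc 0 X).filter (fun m => m ∈ Tops S Q) : Finset ℕ) : Set ℕ) ⊆
      (fun t : ℤ × ℤ × ℤ => max (max t.1.natAbs t.2.1.natAbs) t.2.2.natAbs) '' (Triples S Q X) := by
    intro m hm
    rw [Finset.mem_coe, Finset.mem_filter, Finset.mem_Ioc] at hm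
    obtain ⟨⟨-, hX⟩, x, y, z, ht, rfl⟩ := hm
    rw [max_le_iff, max_le_iff] at hX
    have g : ∀ u : ℤ, u.natAbs ≤ X → |(u : ℝ)| ≤ (X : ℝ) := by
      intro u hu
      rw [← Int.cast_abs, ← Nat.cast_natAbs]
      exact_mod_cast hu
    exact ⟨(x, y, z), ⟨ht, g x hX.1.1, g y hX.1.2, g z hX.2⟩, rfl⟩
  have h1 := Set.ncard_le_ncard hsub (hfin.image _)
  rw [Set.ncard_coe_finset] at h1
  exact h1.trans (Set.ncard_image_le hfin)

theorem inter_dim {τ θ : ℝ} (G : ℕ → Set ℝ)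
    (hG : ∀ m : ℕ, dimH (G m) ≤ ENNReal.ofReal ((1 / ((m : ℝ) + 1) + τ) / (1 - θ))) :
    dimH (⋂ m, G m) ≤ ENNReal.ofReal (τ / (1 - θ)) := by
  have hlim : Tendsto (fun m : ℕ => ENNReal.ofReal ((1 / ((m : ℝ) + 1) + τ) / (1 - θ))) atTop
      (𝓝 (ENNReal.ofReal ((0 + τ) / (1 - θ)))) :=
    ENNReal.tendsto_ofReal ((tendsto_one_div_add_atTop_nhds_zero_nat.add_const τ).div_const (1 - θ))
  rw [zero_add] at hlim
  exact ge_of_tendsto' hlim fun m => (dimH_mono (Set.iInter_subset _ m)).trans (hG m)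

/-- windows for a family of conditions on the exponents -/
theorem windows (S : Finset ℕ) (Q : ℕ → ℕ → ℕ → ℕ → Prop) {v : ℕ → ℝ} {τ θ : ℝ}
    (hcount : ∀ ε : ℝ, 0 < ε → ∃ (R : ℕ) (C : ℝ), ∀ Y : ℝ, 1 ≤ Y →
      (Triples S (Q R) Y).Finite ∧ ((Triples S (Q R) Y).ncard : ℝ) ≤ C * Y ^ ε)
    (hv : ∀ k, 1 ≤ v k) (hτ : 0 ≤ τ) (hE : ExpLe v τ) (hθ : θ < 1) :
    ∃ E : Set ℝ, dimH E ≤ ENNReal.ofReal (τ / (1 - θ)) ∧
      ∀ α : ℝ, 0 < α → α ∉ E → ∃ R k₀ : ℕ, ∀ k : ℕ, k₀ ≤ k → ∀ x y z : ℤ,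
        IsBases S (Q R) x y z →
          (v k) ^ θ < |((max (max x.natAbs y.natAbs) z.natAbs : ℕ) : ℝ) - α * v k| := by
  classical
  have hall : ∀ j : ℕ, ∃ (R : ℕ) (E : Set ℝ),
      dimH E ≤ ENNReal.ofReal ((1 / ((j : ℝ) + 1) + τ) / (1 - θ)) ∧
      ∀ α : ℝ, 0 < α → α ∉ E → ∃ k₀ : ℕ, ∀ k : ℕ, k₀ ≤ k → ∀ m : ℕ,
        |(m : ℝ) - α * v k| ≤ (v k) ^ θ → 0 < m ∧ m ∉ Tops S (Q R) := by
    intro j
    obtain ⟨R, C, h⟩ := hcount (1 / ((j : ℝ) + 1)) (by positivity)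
    obtain ⟨E, h3, h4⟩ := Pool.Agent.Y854.GM.win_nat (Tops S (Q R)) hv hτ hE
      (s := 1 / ((j : ℝ) + 1)) (by positivity) hθ (fun ε hε => by
        refine ⟨|C|, fun X hX => ?_⟩
        have hX1 : (1 : ℝ) ≤ X := by exact_mod_cast hX
        obtain ⟨hf, hc⟩ := h X hX1
        have h9 : (((Finset.Ioc 0 X).filter (fun t => t ∈ Tops S (Q R))).card : ℝ) ≤
            ((Triples S (Q R) X).ncard : ℝ) := by exact_mod_cast card_tops S (Q R) X hf
        refine h9.trans (hc.trans ?_)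
        refine mul_le_mul (le_abs_self C) ?_ (by positivity) (abs_nonneg C)
        apply Real.rpow_le_rpow_of_exponent_le hX1
        linarith)
    exact ⟨R, E, h3, h4⟩
  choose R G hG1 hG2 using hall
  refine ⟨⋂ m, G m, inter_dim G hG1, fun α hα hαE => ?_⟩
  rw [Set.mem_iInter] at hαE
  push Not at hαE
  obtain ⟨j, hj⟩ := hαE
  obtain ⟨k₀, hk⟩ := hG2 j α hα hj
  refine ⟨R j, k₀, fun k hk1 x y z hs => ?_⟩
  by_contra hcon
  push Not at hcon
  exact (hk k hk1 _ hcon).2 ⟨x, y, z, hs, rfl⟩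

/-- one exceptional set for all `S` -/
theorem one_set {P : Finset ℕ → ℝ → Prop} {d : ℝ≥0∞}
    (h : ∀ S : Finset ℕ, ∃ E : Set ℝ, dimH E ≤ d ∧ ∀ α : ℝ, 0 < α → α ∉ E → P S α) :
    ∃ E : Set ℝ, dimH E ≤ d ∧ ∀ α : ℝ, 0 < α → α ∉ E → ∀ S : Finset ℕ, P S α := by
  choose E hE1 hE2 using h
  refine ⟨⋃ S, E S, ?_, fun α hα hαE S => ?_⟩
  · rw [dimH_iUnion]
    exact iSup_le hE1
  · exact hE2 S α hα fun h0 => hαE (Set.mem_iUnion.2 ⟨S, h0⟩)

/-! ### Small exponents -/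

/-- The triples of terms of all `S`-solutions, with the exponents less than `R`. -/
def Small (S : Finset ℕ) (R : ℕ) : Set (ℤ × ℤ × ℤ) :=
  {t | t.1 + t.2.1 = t.2.2 ∧ IsCoprime t.1 t.2.1 ∧
    ∃ p q r : ℕ, 2 ≤ p ∧ 2 ≤ q ∧ 2 ≤ r ∧ (1 : ℚ) / p + 1 / q + 1 / r < 1 ∧
      SPower S p t.1 ∧ SPower S q t.2.1 ∧ SPower S r t.2.2 ∧ p < R ∧ q < R ∧ r < R}

theorem two_le_aux {a b c : ℕ} (ha : 0 < a) (hb : 0 < b) (hc : 0 < c)
    (h : (1 : ℚ) / a + 1 / b + 1 / c < 1) : 2 ≤ a := by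
  by_contra hcon
  have h1 : a = 1 := by omega
  have h2 : (0 : ℚ) < 1 / b := by
    have : (0 : ℚ) < b := by exact_mod_cast hb
    positivity
  have h3 : (0 : ℚ) < 1 / c := by
    have : (0 : ℚ) < c := by exact_mod_cast hc
    positivity
  rw [h1, Nat.cast_one, div_one] at h
  linarith

theorem coprime_terms {a b c x y z : ℤ} {p q r : ℕ} (h : Solution a b c x y z p q r) :
    IsCoprime (a * x ^ p) (b * y ^ q) := by
  obtain ⟨heq, -, -, -, -, -, -, -, -, -, hgcd⟩ := h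
  rw [Int.isCoprime_iff_gcd_eq_one]
  by_contra hne
  obtain ⟨l, hl, hd⟩ := Nat.exists_prime_and_dvd hne
  have hlp : Prime (l : ℤ) := Nat.prime_iff_prime_int.mp hl
  have d1 : (l : ℤ) ∣ a * x ^ p := (Int.natCast_dvd_natCast.2 hd).trans (Int.gcd_dvd_left _ _)
  have d2 : (l : ℤ) ∣ b * y ^ q := (Int.natCast_dvd_natCast.2 hd).trans (Int.gcd_dvd_right _ _)
  have d3 : (l : ℤ) ∣ c * z ^ r := by
    rw [← heq]
    exact d1.add d2
  have g : ∀ (u v : ℤ) (k : ℕ), (l : ℤ) ∣ u * v ^ k → (l : ℤ) ∣ u * v := by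
    intro u v k h
    rcases hlp.dvd_or_dvd h with h | h
    · exact h.mul_right _
    · exact (hlp.dvd_of_dvd_pow h).mul_left _
  have h4 := Int.dvd_coe_gcd (g a x p d1) (Int.dvd_coe_gcd (g b y q d2) (g c z r d3))
  rw [hgcd] at h4
  have h5 : l ∣ 1 := by exact_mod_cast h4
  exact hl.one_lt.ne' (Nat.dvd_one.1 h5)

/-- With the theorem of Darmon and Granville: the terms of all `S`-solutions. -/
theorem terms_all (hDG : DarmonGranville) (S : Finset ℕ) (hS : ∀ l ∈ S, l.Prime) (ε : ℝ)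
    (hε : 0 < ε) : ∃ C : ℝ, ∀ Y : ℝ, 1 ≤ Y →
      (Terms S Hyp Y).Finite ∧ ((Terms S Hyp Y).ncard : ℝ) ≤ C * Y ^ ε := by
  obtain ⟨R, C, hC, h⟩ := SolutionsByBases.result.2.2 S ε hε
  have hfin : (Small S R).Finite :=
    MP_509488_nt.SolutionCount.finite_bounded hDG S (fun l hl => (hS l hl).one_le) R
  refine ⟨C + (Small S R).ncard, fun Y hY => ?_⟩
  obtain ⟨h1, h2⟩ := h Y hY
  have hsub : Terms S Hyp Y ⊆ ByBases S R Y ∪ Small S R := by
    rintro t ⟨a, b, c, x, y, z, p, q, r, hs, ht, hSl, hlt, hB⟩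
    have hs' := hs
    obtain ⟨heq, ha0, hb0, hc0, hx0, hy0, hz0, hp, hq, hr, hgcd⟩ := hs'
    unfold Hyp at hlt
    have p2 : 2 ≤ p := two_le_aux hp hq hr hlt
    have q2 : 2 ≤ q := two_le_aux hq hp hr (by linarith)
    have r2 : 2 ≤ r := two_le_aux hr hp hq (by linarith)
    by_cases hR : R ≤ p ∨ R ≤ q ∨ R ≤ r
    · exact Or.inl ⟨a, b, c, x, y, z, p, q, r, hs, ht, hSl, Or.inr ⟨p2, q2, r2, hR⟩, hB⟩
    · push Not at hR
      refine Or.inr ?_
      rw [ht]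
      refine ⟨heq, coprime_terms hs, p, q, r, p2, q2, r2, hlt, ⟨mul_ne_zero ha0 (pow_ne_zero _ hx0),
        a, x, rfl, fun l hl hd => hSl l hl ((hd.mul_right b).mul_right c)⟩,
        ⟨mul_ne_zero hb0 (pow_ne_zero _ hy0), b, y, rfl,
          fun l hl hd => hSl l hl ((hd.mul_left a).mul_right c)⟩,
        ⟨mul_ne_zero hc0 (pow_ne_zero _ hz0), c, z, rfl,
          fun l hl hd => hSl l hl (hd.mul_left (a * b))⟩, hR⟩
  refine ⟨(h1.union hfin).subset hsub, ?_⟩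
  have h3 : (Terms S Hyp Y).ncard ≤ (ByBases S R Y).ncard + (Small S R).ncard :=
    (Set.ncard_le_ncard hsub (h1.union hfin)).trans (Set.ncard_union_le _ _)
  have h4 : ((Terms S Hyp Y).ncard : ℝ) ≤ ((ByBases S R Y).ncard : ℝ) + (Small S R).ncard := by
    exact_mod_cast h3
  have h5 : 1 ≤ Y ^ ε := Real.one_le_rpow hY hε.le
  have h6 : (0 : ℝ) ≤ (Small S R).ncard := Nat.cast_nonneg _
  nlinarith

/-- the count of the bases for large exponents -/
theorem count_large (S : Finset ℕ) (ε : ℝ) (hε : 0 < ε) : ∃ (R : ℕ) (C : ℝ), ∀ Y : ℝ, 1 ≤ Y →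
    (Triples S (Large R) Y).Finite ∧ ((Triples S (Large R) Y).ncard : ℝ) ≤ C * Y ^ ε := by
  obtain ⟨R, C, hC, h⟩ := SolutionsByBases.result.2.2 S (ε / 2) (by positivity)
  obtain ⟨C', hC'⟩ := triples_of_terms S (Large R) hε ⟨C, h⟩
  exact ⟨R, C', hC'⟩

/-- **Theorem.** Unconditional: (1) for every finite set `S` and every `ε > 0` there are `R`
and `C` such that for all `Y ≥ 1` at most `C Y ^ ε` triples of bases `(x, y, z)` with
`|x|, |y|, |z| ≤ Y` belong to `S`-solutions with large exponents (all `≥ 2` and one `≥ R`, or two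
`≥ R`). (2) Let `v ≥ 1` have exponent of convergence at most `τ` and `θ < 1`. There is one set `E` of
Hausdorff dimension at most `τ / (1 - θ)` such that for all `α > 0` outside `E` and all `S` there is
`R` such that for all large `k` no `S`-solution with large exponents has
`|max (|x|, |y|, |z|) - α v_k| ≤ v_k ^ θ`. (3) The sequences `(k + 1) ^ b` and `b ^ k` have exponents
of convergence at most `1 / b` and `0`. (4) With the published theorem of Darmon and Granville,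
(1) and (2) hold for all `S`-solutions with `1/p + 1/q + 1/r < 1`, `S` a finite set of primes, and
(1) also for the triples of terms. -/
theorem result :
    (∀ (S : Finset ℕ) (ε : ℝ), 0 < ε → ∃ (R : ℕ) (C : ℝ), ∀ Y : ℝ, 1 ≤ Y →
      (Triples S (Large R) Y).Finite ∧ ((Triples S (Large R) Y).ncard : ℝ) ≤ C * Y ^ ε) ∧
    (∀ (v : ℕ → ℝ) (τ θ : ℝ), (∀ k, 1 ≤ v k) → 0 ≤ τ → ExpLe v τ → θ < 1 →
      ∃ E : Set ℝ, dimH E ≤ ENNReal.ofReal (τ / (1 - θ)) ∧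
        ∀ α : ℝ, 0 < α → α ∉ E → ∀ S : Finset ℕ, ∃ R k₀ : ℕ, ∀ k : ℕ, k₀ ≤ k → ∀ x y z : ℤ,
          IsBases S (Large R) x y z →
            (v k) ^ θ < |((max (max x.natAbs y.natAbs) z.natAbs : ℕ) : ℝ) - α * v k|) ∧
    ((∀ b : ℝ, 0 < b → ExpLe (fun n : ℕ => ((n : ℝ) + 1) ^ b) (1 / b)) ∧
      (∀ b : ℝ, 1 < b → ExpLe (fun n : ℕ => b ^ n) 0)) ∧
    (DarmonGranville →
      (∀ S : Finset ℕ, (∀ l ∈ S, l.Prime) → ∀ ε : ℝ, 0 < ε → ∃ C : ℝ, ∀ Y : ℝ, 1 ≤ Y →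
        (Triples S Hyp Y).Finite ∧ ((Triples S Hyp Y).ncard : ℝ) ≤ C * Y ^ ε ∧
        (Terms S Hyp Y).Finite ∧ ((Terms S Hyp Y).ncard : ℝ) ≤ C * Y ^ ε) ∧
      (∀ (v : ℕ → ℝ) (τ θ : ℝ), (∀ k, 1 ≤ v k) → 0 ≤ τ → ExpLe v τ → θ < 1 →
        ∃ E : Set ℝ, dimH E ≤ ENNReal.ofReal (τ / (1 - θ)) ∧
          ∀ α : ℝ, 0 < α → α ∉ E → ∀ S : Finset ℕ, (∀ l ∈ S, l.Prime) →
            ∃ k₀ : ℕ, ∀ k : ℕ, k₀ ≤ k → ∀ x y z : ℤ, IsBases S Hyp x y z →
              (v k) ^ θ < |((max (max x.natAbs y.natAbs) z.natAbs : ℕ) : ℝ) - α * v k|)) := by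
  refine ⟨count_large, fun v τ θ hv hτ hE hθ => ?_,
    ⟨fun b hb => Pool.Agent.Y854.GM.expLe_pow b hb, fun b hb => Pool.Agent.Y854.GM.expLe_geom b hb⟩,
    fun hDG => ⟨fun S hS ε hε => ?_, fun v τ θ hv hτ hE hθ => ?_⟩⟩
  · exact one_set fun S => windows S Large (count_large S) hv hτ hE hθ
  · obtain ⟨C₁, h₁⟩ := terms_all hDG S hS ε hε
    obtain ⟨C₂, h₂⟩ := triples_of_terms S Hyp hε (terms_all hDG S hS (ε / 2) (by positivity))
    refine ⟨max C₁ C₂, fun Y hY => ?_⟩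
    have hY0 : 0 ≤ Y ^ ε := by positivity
    exact ⟨(h₂ Y hY).1, (h₂ Y hY).2.trans (mul_le_mul_of_nonneg_right (le_max_right _ _) hY0),
      (h₁ Y hY).1, (h₁ Y hY).2.trans (mul_le_mul_of_nonneg_right (le_max_left _ _) hY0)⟩
  · refine one_set fun S => ?_
    by_cases hS : ∀ l ∈ S, l.Prime
    · obtain ⟨E, hE1, hE2⟩ := windows S (fun _ => Hyp) (fun ε hε => by
        obtain ⟨C, hC⟩ := triples_of_terms S Hyp hε (terms_all hDG S hS (ε / 2) (by positivity))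
        exact ⟨0, C, hC⟩) hv hτ hE hθ
      refine ⟨E, hE1, fun α hα hαE _ => ?_⟩
      obtain ⟨-, k₀, hk⟩ := hE2 α hα hαE
      exact ⟨k₀, hk⟩
    · exact ⟨∅, by simp, fun α _ _ h0 => absurd h0 hS⟩

end Pool.Agent.Results.MP_be1fae_nt.AllSolutionsWithDG
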