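import Mathlib
import Pool.Agent.Q103.SD.Abc

/-!
# `a x ^ p + b y ^ q = c z ^ r`, coefficients and bases composed of numbers with small digits

All of `a`, `b`, `c`, `x`, `y`, `z` are products of powers of boundedly many numbers with small digits
(of either sign) in a large base `t`, with last digit `0` (for `a`, `x`) or `1`, `-1` (for `b`, `y`,
`c`, `z`). All exponents are arbitrary, and the coefficients are not bounded.
-/

set_option autoImplicit false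

namespace Pool.Agent.Results.MP_be1fae_nt.CoefficientsAndBases

open Polynomial Finset

/-- The numbers `F_i(t)`, `i < n`, are the values at `t` of nonconstant polynomials with coefficients
(digits) of absolute value at most `H` and last digit `0`, `1` or `-1`, of total degree at most
`K`. -/
structure Digits (K : ℕ) (H : ℝ) {n : ℕ} (F : Fin n → ℤ[X]) : Prop where
  pos : ∀ i, 0 < (F i).natDegree
  deg : ∑ i, (F i).natDegree ≤ K
  digits : ∀ i j, |((F i).coeff j : ℝ)| ≤ H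
  last : ∀ i, (F i).coeff 0 = 0 ∨ (F i).coeff 0 = 1 ∨ (F i).coeff 0 = -1

theorem key {p q r : ℕ} (hpq : p ≤ q) (hqr : q ≤ r) (h : q * r + p * r + p * q < p * q * r) :
    42 * (q * r + p * r + p * q) ≤ 41 * (p * q * r) := by
  rcases Nat.lt_or_ge p 4 with hp | hp
  · interval_cases p
    · omega
    · exfalso
      nlinarith
    · -- `p = 2`
      rcases Nat.lt_or_ge q 5 with hq | hq
      · interval_cases q
        · exfalso
          nlinarith
        · omega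
        · omega
      · nlinarith
    · rcases Nat.lt_or_ge q 4 with hq | hq
      · interval_cases q
        omega
      · nlinarith
  · have h1 : p * r ≤ q * r := Nat.mul_le_mul_right r hpq
    have h2 : p * q ≤ r * q := Nat.mul_le_mul_right q (hpq.trans hqr)
    have h3 : 4 * (q * r) ≤ p * q * r := by
      rw [mul_assoc]
      exact Nat.mul_le_mul_right _ hp
    nlinarith

theorem key' {p q r : ℕ} (h : q * r + p * r + p * q < p * q * r) :
    42 * (q * r + p * r + p * q) ≤ 41 * (p * q * r) := by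
  rcases le_total p q with h1 | h1 <;> rcases le_total q r with h2 | h2 <;>
    rcases le_total p r with h3 | h3
  · exact key h1 h2 h
  · exact key h1 h2 h
  · have := key (p := p) (q := r) (r := q) h3 h2 (by nlinarith)
    nlinarith
  · have := key (p := r) (q := p) (r := q) h3 h1 (by nlinarith)
    nlinarith
  · have := key (p := q) (q := p) (r := r) h1 h3 (by nlinarith)
    nlinarith
  · have := key (p := q) (q := r) (r := p) h2 h3 (by nlinarith)
    nlinarith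
  · have := key (p := r) (q := q) (r := p) h2 h1 (by nlinarith)
    nlinarith
  · have := key (p := r) (q := q) (r := p) h2 h1 (by nlinarith)
    nlinarith

theorem sum_le {p q r : ℕ} (hp : 0 < p) (hq : 0 < q) (hr : 0 < r)
    (h : 1 / (p : ℝ) + 1 / (q : ℝ) + 1 / (r : ℝ) < 1) :
    1 / (p : ℝ) + 1 / (q : ℝ) + 1 / (r : ℝ) ≤ 41 / 42 := by
  have hp0 : (0 : ℝ) < p := by exact_mod_cast hp
  have hq0 : (0 : ℝ) < q := by exact_mod_cast hq
  have hr0 : (0 : ℝ) < r := by exact_mod_cast hr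
  have e : 1 / (p : ℝ) + 1 / (q : ℝ) + 1 / (r : ℝ) =
      ((q * r + p * r + p * q : ℕ) : ℝ) / ((p * q * r : ℕ) : ℝ) := by
    push_cast
    field_simp
  have hpos : (0 : ℝ) < ((p * q * r : ℕ) : ℝ) := by push_cast; positivity
  rw [e] at h ⊢
  rw [div_lt_one hpos] at h
  rw [div_le_div_iff₀ hpos (by norm_num)]
  have h1 : q * r + p * r + p * q < p * q * r := by exact_mod_cast h
  have h2 := key' h1
  have h3 : ((42 * (q * r + p * r + p * q) : ℕ) : ℝ) ≤ ((41 * (p * q * r) : ℕ) : ℝ) := by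
    exact_mod_cast h2
  push_cast at h3 ⊢
  linarith

theorem result (K : ℕ) (ε : ℝ) (hε : 0 < ε) : ∃ δ : ℝ, 0 < δ ∧ ∃ t₀ : ℕ, ∀ t : ℕ, t₀ ≤ t →
    ∀ (n : ℕ) (F : Fin n → ℤ[X]), Digits K ((t : ℝ) ^ δ) F →
    ∀ (α β γ : ℤ), |(α : ℝ)| ≤ (t : ℝ) ^ δ → |(β : ℝ)| ≤ (t : ℝ) ^ δ → |(γ : ℝ)| ≤ (t : ℝ) ^ δ →
    ∀ (ea eb ec ex ey ez : Fin n → ℕ),
      (∀ i, ea i ≠ 0 ∨ ex i ≠ 0 → (F i).coeff 0 = 0) →
      (∀ i, eb i ≠ 0 ∨ ey i ≠ 0 ∨ ec i ≠ 0 ∨ ez i ≠ 0 → (F i).coeff 0 ≠ 0) →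
      (∃ i, ea i ≠ 0 ∨ ex i ≠ 0 ∨ eb i ≠ 0 ∨ ey i ≠ 0 ∨ ec i ≠ 0 ∨ ez i ≠ 0) →
    ∀ a b c x y z : ℤ, a ≠ 0 → b ≠ 0 → c ≠ 0 →
      a = α * ∏ i, (F i).eval (t : ℤ) ^ ea i → x = ∏ i, (F i).eval (t : ℤ) ^ ex i →
      b = β * ∏ i, (F i).eval (t : ℤ) ^ eb i → y = ∏ i, (F i).eval (t : ℤ) ^ ey i →
      c = γ * ∏ i, (F i).eval (t : ℤ) ^ ec i → z = ∏ i, (F i).eval (t : ℤ) ^ ez i →
    ∀ p q r : ℕ, 0 < p → 0 < q → 0 < r → 1 / (p : ℝ) + 1 / (q : ℝ) + 1 / (r : ℝ) < 1 →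
      a * x ^ p + b * y ^ q = c * z ^ r → IsCoprime (a * x ^ p) (b * y ^ q) →
      (max (max |(a * x ^ p : ℝ)| |(b * y ^ q : ℝ)|) |(c * z ^ r : ℝ)|) ^ (1 / 42 : ℝ) *
          (t : ℝ) ^ (1 - ε) ≤
        |((∏ i ∈ Finset.univ.filter (fun i => ea i ≠ 0 ∨ eb i ≠ 0 ∨ ec i ≠ 0),
          (F i).eval (t : ℤ) : ℤ) : ℝ)| ∧
      1 < ∑ i ∈ Finset.univ.filter (fun i => ea i ≠ 0 ∨ eb i ≠ 0 ∨ ec i ≠ 0),
        (F i).natDegree := by
  obtain ⟨ε₁, hε₁⟩ : ∃ ε₁, ε₁ = min ε (1 / 200) := ⟨_, rfl⟩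
  have hε₁0 : 0 < ε₁ := by rw [hε₁]; exact lt_min hε (by norm_num)
  have hε₁1 : ε₁ ≤ 1 / 200 := by rw [hε₁]; exact min_le_right _ _
  have hε₁2 : ε₁ ≤ ε := by rw [hε₁]; exact min_le_left _ _
  obtain ⟨δ₁, hδ₁, hδ₁', t₁, ht₁, h1⟩ := Pool.Agent.Q103.SD.three K
  obtain ⟨δ₂, hδ₂, t₂, h2⟩ := Pool.Agent.Q103.SD.abc_size K ε₁ hε₁0
  obtain ⟨δ₀, hδ₀⟩ : ∃ δ₀, δ₀ = min (min δ₁ δ₂) (1 / 200) := ⟨_, rfl⟩
  have hδ₀0 : 0 < δ₀ := by rw [hδ₀]; exact lt_min (lt_min hδ₁ hδ₂) (by norm_num)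
  have hδ₀1 : δ₀ ≤ 1 / 200 := by rw [hδ₀]; exact min_le_right _ _
  have hδ₀2 : δ₀ ≤ min δ₁ δ₂ := by rw [hδ₀]; exact min_le_left _ _
  refine ⟨δ₀, hδ₀0, max (max t₁ t₂) (2 ^ 90), ?_⟩
  intro t ht n F hS α β γ hαt hβt hγt ea eb ec ex ey ez hfirst hsecond hex a b c x y z ha hb hc
    hea hexx heb hey hec hez p q r hp hq hr hpqr heq hcop
  have htt₁ : t₁ ≤ t := ((le_max_left _ _).trans (le_max_left _ _)).trans ht
  have htt₂ : t₂ ≤ t := ((le_max_right _ _).trans (le_max_left _ _)).trans ht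
  have ht90 : 2 ^ 90 ≤ t := (le_max_right _ _).trans ht
  have ht64 : (64 : ℝ) ≤ t := by exact_mod_cast ht₁.trans htt₁
  have ht0 : (0 : ℝ) < t := by linarith
  have hα0 : α ≠ 0 := by rintro rfl; rw [zero_mul] at hea; exact ha hea
  have hβ0 : β ≠ 0 := by rintro rfl; rw [zero_mul] at heb; exact hb heb
  have hγ0 : γ ≠ 0 := by rintro rfl; rw [zero_mul] at hec; exact hc hec
  obtain ⟨l, hl⟩ : ∃ l : Fin n → ℕ, ∀ i, l i = ea i + p * ex i := ⟨_, fun i => rfl⟩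
  obtain ⟨l', hl'⟩ : ∃ l' : Fin n → ℕ, ∀ i, l' i = eb i + q * ey i := ⟨_, fun i => rfl⟩
  obtain ⟨l'', hl''⟩ : ∃ l'' : Fin n → ℕ, ∀ i, l'' i = ec i + r * ez i := ⟨_, fun i => rfl⟩
  have hterm : ∀ (η : ℤ) (e e' e'' : Fin n → ℕ) (k : ℕ) (A X : ℤ), (∀ i, e i = e' i + k * e'' i) →
      A = η * ∏ i, (F i).eval (t : ℤ) ^ e' i → X = ∏ i, (F i).eval (t : ℤ) ^ e'' i →
      A * X ^ k = η * ∏ i, (F i).eval (t : ℤ) ^ e i := by
    intro η e e' e'' k A X he hA hX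
    rw [hA, hX, mul_assoc, ← Finset.prod_pow, ← Finset.prod_mul_distrib]
    congr 1
    apply Finset.prod_congr rfl
    intro i _
    rw [he i, pow_add, ← pow_mul, mul_comm k]
  have hA := hterm α l ea ex p a x hl hea hexx
  have hB := hterm β l' eb ey q b y hl' heb hey
  have hG := hterm γ l'' ec ez r c z hl'' hec hez
  have hconv : ∀ δ : ℝ, min δ₁ δ₂ ≤ δ →
      Pool.Agent.Q103.SD.Data t K ((t : ℝ) ^ δ) F α β γ l l' l'' := by
    intro δ hδ
    have hle : (t : ℝ) ^ δ₀ ≤ (t : ℝ) ^ δ :=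
      Real.rpow_le_rpow_of_exponent_le (by linarith) (hδ₀2.trans hδ)
    refine ⟨hS.pos, hS.deg, fun i j => (hS.digits i j).trans hle, fun i => by
      rcases hS.last i with h | h | h <;> rw [h] <;> norm_num, hα0, hβ0, hγ0,
      hαt.trans hle, hβt.trans hle, hγt.trans hle, ?_, ?_, ?_⟩
    · intro i hi
      apply hfirst i
      rw [hl i] at hi
      by_contra hcon
      push Not at hcon
      rw [hcon.1, hcon.2] at hi
      simp at hi
    · intro i hi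
      apply hsecond i
      rw [hl' i] at hi
      by_contra hcon
      push Not at hcon
      rw [hcon.1, hcon.2.1] at hi
      simp at hi
    · intro i hi
      apply hsecond i
      rw [hl'' i] at hi
      by_contra hcon
      push Not at hcon
      rw [hcon.2.2.1, hcon.2.2.2] at hi
      simp at hi
  have hD1 := hconv δ₁ (min_le_left _ _)
  have hD2 := hconv δ₂ (min_le_right _ _)
  have hid := h1 t htt₁ n F α β γ l l' l'' hD1 (by rw [← hA, ← hB, ← hG]; exact heq)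
  have hU : (Pool.Agent.Q103.SD.used l l' l'').Nonempty := by
    obtain ⟨i, hi⟩ := hex
    refine ⟨i, Finset.mem_filter.mpr ⟨Finset.mem_univ _, ?_⟩⟩
    rw [hl i, hl' i, hl'' i]
    by_contra hcon
    push Not at hcon
    obtain ⟨h3, h4, h5⟩ := hcon
    rw [Nat.add_eq_zero_iff, Nat.mul_eq_zero] at h3 h4 h5
    rcases hi with hi | hi | hi | hi | hi | hi
    · exact hi h3.1
    · exact hi (h3.2.resolve_left (by omega))
    · exact hi h4.1
    · exact hi (h4.2.resolve_left (by omega))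
    · exact hi h5.1
    · exact hi (h5.2.resolve_left (by omega))
  have hF0 : ∀ i, (F i).eval (t : ℤ) ≠ 0 := by
    intro i h0
    obtain ⟨ρ, hρ⟩ : ∃ ρ : ℝ, ρ = (t : ℝ) ^ (1 / 2 : ℝ) := ⟨_, rfl⟩
    have hρρ : ρ * ρ = t := by
      rw [hρ, ← Real.rpow_add ht0]
      norm_num
    have hρ8 : 8 ≤ ρ := by
      have hρ0 : 0 ≤ ρ := by rw [hρ]; positivity
      nlinarith
    have hBρ : (t : ℝ) ^ δ₁ ≤ ρ := by
      rw [hρ]
      exact Real.rpow_le_rpow_of_exponent_le (by linarith) hδ₁'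
    have hne : F i ≠ 0 := fun h => by
      have := hS.pos i
      rw [h, natDegree_zero] at this
      omega
    have h3 := (Pool.Agent.Q103.SD.value_size (t := t) (by
      have : (2 : ℝ) ≤ t := by linarith
      exact_mod_cast this) (by positivity)
      (by nlinarith) (hD1.coeff i) hne).1
    rw [h0, Int.cast_zero, abs_zero] at h3
    have h4 : (0 : ℝ) < (t : ℝ) ^ (F i).natDegree := by positivity
    linarith
  have hprod : ∀ e : Fin n → ℕ, ∏ i, (F i).eval (t : ℤ) ^ e i ≠ 0 := fun e =>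
    Finset.prod_ne_zero_iff.mpr fun i _ => pow_ne_zero _ (hF0 i)
  have hx0 : x ≠ 0 := by rw [hexx]; exact hprod ex
  have hy0 : y ≠ 0 := by rw [hey]; exact hprod ey
  have hz0 : z ≠ 0 := by rw [hez]; exact hprod ez
  have h1R : ∀ u : ℤ, u ≠ 0 → (1 : ℝ) ≤ |(u : ℝ)| := fun u hu => by
    exact_mod_cast Int.one_le_abs hu
  obtain ⟨T, hT⟩ : ∃ T : ℤ, T = ∏ i ∈ Finset.univ.filter
    (fun i => ea i ≠ 0 ∨ eb i ≠ 0 ∨ ec i ≠ 0), (F i).eval (t : ℤ) := ⟨_, rfl⟩
  obtain ⟨Q, hQ⟩ : ∃ Q : ℤ, Q = ∏ i ∈ Pool.Agent.Q103.SD.used l l' l'', (F i).eval (t : ℤ) :=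
    ⟨_, rfl⟩
  have hT0 : T ≠ 0 := by rw [hT]; exact Finset.prod_ne_zero_iff.mpr fun i _ => hF0 i
  have hdvd : Q ∣ T * (x * y * z) := by
    have e1 : x * y * z = ∏ i, (F i).eval (t : ℤ) ^ (ex i + ey i + ez i) := by
      rw [hexx, hey, hez, ← Finset.prod_mul_distrib, ← Finset.prod_mul_distrib]
      apply Finset.prod_congr rfl
      intro i _
      rw [pow_add, pow_add]
    have e2 : T = ∏ i, (F i).eval (t : ℤ) ^ (if ea i ≠ 0 ∨ eb i ≠ 0 ∨ ec i ≠ 0 then 1 else 0) := by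
      rw [hT, Finset.prod_filter]
      apply Finset.prod_congr rfl
      intro i _
      split_ifs <;> simp
    have e3 : Q = ∏ i, (F i).eval (t : ℤ) ^
        (if l i ≠ 0 ∨ l' i ≠ 0 ∨ l'' i ≠ 0 then 1 else 0) := by
      rw [hQ]
      unfold Pool.Agent.Q103.SD.used
      rw [Finset.prod_filter]
      apply Finset.prod_congr rfl
      intro i _
      split_ifs <;> simp
    rw [e1, e2, e3, ← Finset.prod_mul_distrib]
    apply Finset.prod_dvd_prod_of_dvd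
    intro i _
    rw [← pow_add]
    apply pow_dvd_pow
    split_ifs with h3 h4
    · omega
    · push Not at h4
      have h5 : ex i ≠ 0 ∨ ey i ≠ 0 ∨ ez i ≠ 0 := by
        by_contra hcon
        push Not at hcon
        rw [hl i, hl' i, hl'' i, h4.1, h4.2.1, h4.2.2, hcon.1, hcon.2.1, hcon.2.2] at h3
        simp at h3
      omega
    · omega
    · omega
  have hQT : |(Q : ℝ)| ≤ |(T : ℝ)| * (|(x : ℝ)| * |(y : ℝ)| * |(z : ℝ)|) := by
    have h3 : |Q| ≤ |T * (x * y * z)| := Int.le_of_dvd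
      (abs_pos.mpr (mul_ne_zero hT0 (mul_ne_zero (mul_ne_zero hx0 hy0) hz0)))
      ((abs_dvd_abs _ _).mpr hdvd)
    rw [abs_mul, abs_mul, abs_mul] at h3
    exact_mod_cast h3
  obtain ⟨M, hM⟩ : ∃ M : ℝ, M = max (max |(a * x ^ p : ℝ)| |(b * y ^ q : ℝ)|) |(c * z ^ r : ℝ)| :=
    ⟨_, rfl⟩
  rw [← hM, ← hT]
  have hA' : ((a * x ^ p : ℤ) : ℝ) = a * x ^ p := by push_cast; ring
  have hB' : ((b * y ^ q : ℤ) : ℝ) = b * y ^ q := by push_cast; ring
  have hG' : ((c * z ^ r : ℤ) : ℝ) = c * z ^ r := by push_cast; ring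
  have hsz : ∀ u : ℤ, u = a * x ^ p ∨ u = b * y ^ q ∨ u = c * z ^ r →
      |(u : ℝ)| * (t : ℝ) ^ (1 - ε₁) ≤ |(Q : ℝ)| := by
    intro u hu
    have h3 := h2 t htt₂ n F α β γ l l' l'' hD2 (by rw [← hA, ← hB]; exact hcop) hid hU u
      (by rw [← hA, ← hB, ← hG]; exact hu)
    rw [← hQ] at h3
    exact h3
  have hMQ : M * (t : ℝ) ^ (1 - ε₁) ≤ |(Q : ℝ)| := by
    rcases max_choice (max |(a * x ^ p : ℝ)| |(b * y ^ q : ℝ)|) |(c * z ^ r : ℝ)| with h3 | h3
    · rcases max_choice |(a * x ^ p : ℝ)| |(b * y ^ q : ℝ)| with h4 | h4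
      · rw [hM, h3, h4, ← hA']; exact hsz _ (Or.inl rfl)
      · rw [hM, h3, h4, ← hB']; exact hsz _ (Or.inr (Or.inl rfl))
    · rw [hM, h3, ← hG']; exact hsz _ (Or.inr (Or.inr rfl))
  have hroot : ∀ (u v : ℤ) (k : ℕ), u ≠ 0 → v ≠ 0 → 0 < k → |(u * v ^ k : ℝ)| ≤ M →
      |(v : ℝ)| ≤ M ^ (1 / (k : ℝ)) := by
    intro u v k hu hv hk huv
    have h3 : |(v : ℝ)| ^ k ≤ M := by
      refine le_trans ?_ huv
      rw [abs_mul, abs_pow]
      exact le_mul_of_one_le_left (by positivity) (h1R u hu)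
    have hk0 : (k : ℝ) ≠ 0 := by
      have : (0 : ℝ) < k := by exact_mod_cast hk
      exact this.ne'
    calc |(v : ℝ)| = (|(v : ℝ)| ^ k) ^ (1 / (k : ℝ)) := by
          rw [← Real.rpow_natCast, ← Real.rpow_mul (abs_nonneg _), mul_one_div_cancel hk0,
            Real.rpow_one]
      _ ≤ _ := Real.rpow_le_rpow (by positivity) h3 (by positivity)
  have hxM := hroot a x p ha hx0 hp (by rw [hM]; exact (le_max_left _ _).trans (le_max_left _ _))
  have hyM := hroot b y q hb hy0 hq (by rw [hM]; exact (le_max_right _ _).trans (le_max_left _ _))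
  have hzM := hroot c z r hc hz0 hr (by rw [hM]; exact le_max_right _ _)
  have hM1 : 1 ≤ M := by
    have h3 : (1 : ℝ) ≤ |(c * z ^ r : ℝ)| := by
      rw [← hG']
      exact h1R _ (mul_ne_zero hc (pow_ne_zero _ hz0))
    refine h3.trans ?_
    rw [hM]
    exact le_max_right _ _
  have hM0 : 0 < M := by linarith
  have hxyz : |(x : ℝ)| * |(y : ℝ)| * |(z : ℝ)| ≤ M ^ (41 / 42 : ℝ) := by
    calc |(x : ℝ)| * |(y : ℝ)| * |(z : ℝ)| ≤
          M ^ (1 / (p : ℝ)) * M ^ (1 / (q : ℝ)) * M ^ (1 / (r : ℝ)) := by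
          apply mul_le_mul (mul_le_mul hxM hyM (abs_nonneg _) (by positivity)) hzM (abs_nonneg _)
            (by positivity)
      _ = M ^ (1 / (p : ℝ) + 1 / (q : ℝ) + 1 / (r : ℝ)) := by
          rw [Real.rpow_add hM0, Real.rpow_add hM0]
      _ ≤ _ := Real.rpow_le_rpow_of_exponent_le hM1 (sum_le hp hq hr hpqr)
  have h41 : 0 < M ^ (41 / 42 : ℝ) := by positivity
  have hsplit : M = M ^ (1 / 42 : ℝ) * M ^ (41 / 42 : ℝ) := by
    rw [← Real.rpow_add hM0]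
    norm_num
  have hfin : (M ^ (1 / 42 : ℝ) * (t : ℝ) ^ (1 - ε₁)) * M ^ (41 / 42 : ℝ) ≤
      |(T : ℝ)| * M ^ (41 / 42 : ℝ) := by
    calc (M ^ (1 / 42 : ℝ) * (t : ℝ) ^ (1 - ε₁)) * M ^ (41 / 42 : ℝ) =
          (M ^ (1 / 42 : ℝ) * M ^ (41 / 42 : ℝ)) * (t : ℝ) ^ (1 - ε₁) := by ring
      _ = M * (t : ℝ) ^ (1 - ε₁) := by rw [← hsplit]
      _ ≤ |(Q : ℝ)| := hMQ
      _ ≤ |(T : ℝ)| * (|(x : ℝ)| * |(y : ℝ)| * |(z : ℝ)|) := hQT
      _ ≤ _ := mul_le_mul_of_nonneg_left hxyz (abs_nonneg _)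
  have hmain := le_of_mul_le_mul_right hfin h41
  refine ⟨le_trans (mul_le_mul_of_nonneg_left (Real.rpow_le_rpow_of_exponent_le (by linarith)
    (by linarith)) (by positivity)) hmain, ?_⟩
  -- the bases of the coefficients have total degree at least `2`
  by_contra hdeg
  push Not at hdeg
  have hvu : ∀ i, |(((F i).eval (t : ℤ) : ℤ) : ℝ)| ≤
      2 * (t : ℝ) ^ δ₀ * (t : ℝ) ^ (F i).natDegree ∧
      (t : ℝ) / 2 ≤ |(((F i).eval (t : ℤ) : ℤ) : ℝ)| := by
    intro i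
    have hne : F i ≠ 0 := fun h => by
      have := hS.pos i
      rw [h, natDegree_zero] at this
      omega
    obtain ⟨ρ, hρ⟩ : ∃ ρ : ℝ, ρ = (t : ℝ) ^ (1 / 2 : ℝ) := ⟨_, rfl⟩
    have hρρ : ρ * ρ = t := by
      rw [hρ, ← Real.rpow_add ht0]
      norm_num
    have hρ8 : 8 ≤ ρ := by
      have hρ0 : 0 ≤ ρ := by rw [hρ]; positivity
      nlinarith
    have hBρ : (t : ℝ) ^ δ₀ ≤ ρ := by
      rw [hρ]
      exact Real.rpow_le_rpow_of_exponent_le (by linarith) (by linarith)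
    have h3 := Pool.Agent.Q103.SD.value_size (t := t) (by
      have : (2 : ℝ) ≤ t := by linarith
      exact_mod_cast this) (by positivity) (by nlinarith) (hS.digits i) hne
    have h4 : 1 ≤ (t : ℝ) ^ δ₀ := Real.one_le_rpow (by linarith) hδ₀0.le
    have h5 : (0 : ℝ) < (t : ℝ) ^ (F i).natDegree := by positivity
    have h6 : (t : ℝ) ≤ (t : ℝ) ^ (F i).natDegree := le_self_pow₀ (by linarith) (hS.pos i).ne'
    constructor
    · refine h3.2.trans ?_
      apply mul_le_mul_of_nonneg_right _ h5.le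
      linarith
    · refine le_trans ?_ h3.1
      linarith
  have hTle : |(T : ℝ)| ≤ 2 * (t : ℝ) ^ δ₀ * t := by
    have h4 : 1 ≤ (t : ℝ) ^ δ₀ := Real.one_le_rpow (by linarith) hδ₀0.le
    obtain ⟨V, hV⟩ : ∃ V : Finset (Fin n), V = Finset.univ.filter
      (fun i => ea i ≠ 0 ∨ eb i ≠ 0 ∨ ec i ≠ 0) := ⟨_, rfl⟩
    rw [← hV] at hT hdeg
    rcases V.eq_empty_or_nonempty with hV0 | ⟨i, hi⟩
    · rw [hT, hV0, Finset.prod_empty, Int.cast_one, abs_one]
      nlinarith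
    · have h5 : V = {i} := by
        apply Finset.eq_singleton_iff_unique_mem.mpr
        refine ⟨hi, fun j hj => ?_⟩
        by_contra hij
        have h6 : (F i).natDegree + (F j).natDegree ≤ ∑ i ∈ V, (F i).natDegree := by
          rw [← Finset.sum_pair (f := fun i => (F i).natDegree) (Ne.symm hij)]
          apply Finset.sum_le_sum_of_subset
          intro l hl
          rw [Finset.mem_insert, Finset.mem_singleton] at hl
          rcases hl with rfl | rfl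
          · exact hi
          · exact hj
        have := hS.pos i
        have := hS.pos j
        omega
      rw [h5, Finset.sum_singleton] at hdeg
      have h6 : (F i).natDegree = 1 := by
        have := hS.pos i
        omega
      have h7 := (hvu i).1
      rw [h6, pow_one] at h7
      rw [hT, h5, Finset.prod_singleton]
      exact h7
  have hMt : (t : ℝ) / 2 ≤ M := by
    obtain ⟨i, hi⟩ := hU
    have hbig : ∀ (η : ℤ) (e : Fin n → ℕ), η ≠ 0 → e i ≠ 0 →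
        (t : ℝ) / 2 ≤ |((η * ∏ i, (F i).eval (t : ℤ) ^ e i : ℤ) : ℝ)| := by
      intro η e hη he
      refine (hvu i).2.trans ?_
      have h3 : (F i).eval (t : ℤ) ∣ η * ∏ i, (F i).eval (t : ℤ) ^ e i :=
        ((dvd_pow_self _ he).trans (Finset.dvd_prod_of_mem
          (fun i => (F i).eval (t : ℤ) ^ e i) (Finset.mem_univ i))).mul_left _
      have h4 := Int.le_of_dvd (abs_pos.mpr (mul_ne_zero hη (hprod e))) ((abs_dvd_abs _ _).mpr h3)
      exact_mod_cast h4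
    rcases (Finset.mem_filter.mp hi).2 with h3 | h3 | h3
    · refine (hbig α l hα0 h3).trans ?_
      rw [← hA, hA', hM]
      exact (le_max_left _ _).trans (le_max_left _ _)
    · refine (hbig β l' hβ0 h3).trans ?_
      rw [← hB, hB', hM]
      exact (le_max_right _ _).trans (le_max_left _ _)
    · refine (hbig γ l'' hγ0 h3).trans ?_
      rw [← hG, hG', hM]
      exact le_max_right _ _
  have h3 : M ^ (1 / 42 : ℝ) * (t : ℝ) ^ (1 - ε₁) ≤ 2 * (t : ℝ) ^ δ₀ * t := hmain.trans hTle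
  have h4 : M ^ (1 / 42 : ℝ) ≤ 2 * (t : ℝ) ^ (1 / 84 : ℝ) := by
    have h5 : (0 : ℝ) < (t : ℝ) ^ (1 - ε₁) := by positivity
    refine le_of_mul_le_mul_right (h3.trans ?_) h5
    calc 2 * (t : ℝ) ^ δ₀ * t = 2 * (t : ℝ) ^ (δ₀ + 1) := by
          rw [Real.rpow_add ht0, Real.rpow_one]; ring
      _ ≤ 2 * (t : ℝ) ^ (1 / 84 + (1 - ε₁)) := by
          apply mul_le_mul_of_nonneg_left _ (by norm_num)
          exact Real.rpow_le_rpow_of_exponent_le (by linarith) (by linarith)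
      _ = _ := by rw [Real.rpow_add ht0]; ring
  have h5 : M ≤ 2 ^ 42 * (t : ℝ) ^ (1 / 2 : ℝ) := by
    have h6 : (M ^ (1 / 42 : ℝ)) ^ 42 ≤ (2 * (t : ℝ) ^ (1 / 84 : ℝ)) ^ 42 :=
      pow_le_pow_left₀ (by positivity) h4 42
    rw [mul_pow, ← Real.rpow_mul_natCast hM0.le, ← Real.rpow_mul_natCast ht0.le] at h6
    norm_num at h6 ⊢
    exact h6
  obtain ⟨ρ, hρ⟩ : ∃ ρ : ℝ, ρ = (t : ℝ) ^ (1 / 2 : ℝ) := ⟨_, rfl⟩
  have hρρ : ρ * ρ = t := by
    rw [hρ, ← Real.rpow_add ht0]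
    norm_num
  rw [← hρ] at h5
  have hρ0 : 0 < ρ := by rw [hρ]; positivity
  have h6 : ρ ≤ 2 ^ 43 := by
    have h7 : ρ * ρ ≤ 2 ^ 43 * ρ := by
      rw [hρρ]
      have : (2 : ℝ) ^ 43 = 2 * 2 ^ 42 := by norm_num
      rw [this]
      linarith
    exact le_of_mul_le_mul_right h7 hρ0
  have h7 : (t : ℝ) ≤ 2 ^ 86 := by
    rw [← hρρ]
    nlinarith
  have h8 : ((2 ^ 90 : ℕ) : ℝ) ≤ t := by exact_mod_cast ht90
  norm_num at h7 h8
  linarith

end Pool.Agent.Results.MP_be1fae_nt.CoefficientsAndBases
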