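import Pool.Agent.Q138.PS.WN
import Pool.Agent.Q138.AJ.Rbe1fae

/-!
# `a x ^ p + b y ^ q = c z ^ r`: the solutions which are close to a given point

Let `Y` be a metric space and `π` any map which associates a point of `Y` to every triple of terms
`(a x ^ p, b y ^ q, c z ^ r)`, for instance the ratio of two terms as a real or an `ℓ`-adic number. There is ONE set `Z ⊆ Y` of
Hausdorff dimension ZERO such that for every `w ∈ Y` outside `Z`, all `θ > 0` and `D`: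

(1) For every finite set `S` of primes there is `R` such that only finitely many triples of terms `t` come from solutions with
nonzero entries, `gcd (ax, by, cz) = 1`, `a, b, c` composed of primes of `S`, large exponents (two of them `≥ R`, or all `≥ 2`
and one `≥ R`) and `dist (π t, w) ≤ D B ^ (-θ)`, where `B` is a bound for `|x|, |y|, |z|`.

(2) For every `n` there is `R` such that for all large `B` there are NO solutions with nonzero entries, `gcd (ax, by, cz) = 1`,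
`|x|, |y|, |z| ≤ B`, coefficients `a, b, c` which are, up to sign, products of powers of `n` integers `≤ B ^ (1 / R)` (there is
no bound for the exponents), large exponents as in (1) and `dist (π t, w) ≤ D B ^ (-θ)`.
-/

set_option autoImplicit false

namespace Pool.Agent.Results.MP_be1fae_nt.SolutionsNearGivenPoints

open Filter Pool.Agent.Q138.PS Pool.Agent.Q138.AJ.Rbe1fae

theorem large_mono {R R' p q r : ℕ} (h : R' ≤ R) (hl : TwoLarge R p q r ∨ OneLarge R p q r) :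
    TwoLarge R' p q r ∨ OneLarge R' p q r := by
  unfold TwoLarge OneLarge at *
  omega

theorem bases_mono {Y Y' : ℝ} (h : Y ≤ Y') {x y z : ℤ} (hb : Bases Y x y z) : Bases Y' x y z :=
  ⟨hb.1.trans h, hb.2.1.trans h, hb.2.2.trans h⟩

theorem coef_mono {n : ℕ} {W W' : ℝ} (h : W ≤ W') {a : ℤ} (ha : Coefficient n W a) : Coefficient n W' a := by
  obtain ⟨y, e, h1, h2⟩ := ha
  exact ⟨y, e, fun i => ⟨(h1 i).1, (h1 i).2.trans h⟩, h2⟩

theorem byBases_mono {S : Finset ℕ} {R R' : ℕ} {Y Y' : ℝ} (hR : R' ≤ R) (hY : Y ≤ Y') : ByBases S R Y ⊆ ByBases S R' Y' := by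
  rintro t ⟨a, b, c, x, y, z, p, q, r, h1, h2, h3, h4, h5⟩
  exact ⟨a, b, c, x, y, z, p, q, r, h1, h2, h3, large_mono hR h4, bases_mono hY h5⟩

theorem general_mono {n R R' : ℕ} {η η' Y Y' : ℝ} (hR : R' ≤ R) (hη : η ≤ η') (hη0 : 0 ≤ η') (hY1 : 1 ≤ Y) (hY : Y ≤ Y') :
    General n R η Y ⊆ General n R' η' Y' := by
  have h : Y ^ η ≤ Y' ^ η' := (Real.rpow_le_rpow_of_exponent_le hY1 hη).trans (Real.rpow_le_rpow (by linarith) hY hη0)
  rintro t ⟨a, b, c, x, y, z, p, q, r, h1, h2, h3, h4, h5, h6, h7⟩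
  exact ⟨a, b, c, x, y, z, p, q, r, h1, h2, coef_mono h h3, coef_mono h h4, coef_mono h h5, bases_mono hY h6, large_mono hR h7⟩

/-- the first part for given `S` -/
theorem one (Y : Type) [MetricSpace Y] [MeasurableSpace Y] [BorelSpace Y] (π : ℤ × ℤ × ℤ → Y) (S : Finset ℕ) :
    ∃ Z : Set Y, dimH Z = 0 ∧ ∀ w, w ∉ Z → ∀ θ D : ℝ, 0 < θ → ∃ R : ℕ, (∀ T : ℝ, (ByBases S R T).Finite) ∧
      ∀ᶠ T : ℝ in atTop, ∀ t ∈ ByBases S R T, D * T ^ (-θ) < dist (π t) w := by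
  obtain ⟨R₁, C₁, -, h₁⟩ := Pool.Agent.Q138.AJ.Rbe1fae.result.2.2 S 1 one_pos
  obtain ⟨Z, hZ, hz⟩ := zero_eps π (fun N T => ByBases S (max N R₁) T) (by
    intro ε hε
    obtain ⟨R, C, hC, h⟩ := Pool.Agent.Q138.AJ.Rbe1fae.result.2.2 S ε hε
    refine ⟨R, fun θ hθ => ?_⟩
    refine dimH_map π _ (fun T => ByBases S (max R R₁) T) θ ε C 1 1 hθ hε.le ?_ ?_
    · intro T hT
      obtain ⟨h2, h3⟩ := h T hT
      have hsub : ByBases S (max R R₁) T ⊆ ByBases S R T := byBases_mono (le_max_left _ _) le_rfl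
      refine ⟨h2.subset hsub, ?_⟩
      have h4 : ((ByBases S (max R R₁) T).ncard : ℝ) ≤ (ByBases S R T).ncard := by
        exact_mod_cast Set.ncard_le_ncard hsub h2
      exact h4.trans h3
    · intro T T' _ h2 _
      exact byBases_mono le_rfl h2)
  refine ⟨Z, hZ, fun w hw θ D hθ => ?_⟩
  obtain ⟨N, hN⟩ := hz w hw θ D hθ
  exact ⟨max N R₁, fun T => (h₁ (max T 1) (le_max_right _ _)).1.subset (byBases_mono (le_max_right _ _) (le_max_left _ _)), hN⟩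

/-- the second part for given `n` -/
theorem two (Y : Type) [MetricSpace Y] [MeasurableSpace Y] [BorelSpace Y] (π : ℤ × ℤ × ℤ → Y) (n : ℕ) :
    ∃ Z : Set Y, dimH Z = 0 ∧ ∀ w, w ∉ Z → ∀ θ D : ℝ, 0 < θ → ∃ m : ℕ,
      ∀ᶠ T : ℝ in atTop, ∀ t ∈ General n m (1 / ((m : ℝ) + 1)) T, D * T ^ (-θ) < dist (π t) w := by
  refine zero_eps π (fun m T => General n m (1 / ((m : ℝ) + 1)) T) fun ε hε => ?_
  obtain ⟨R, C, η, hC, hη, h⟩ := Pool.Agent.Q138.AJ.Rbe1fae.result.2.1 n ε hε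
  obtain ⟨m₁, hm₁⟩ := exists_nat_one_div_lt hη
  have hmη : 1 / (((max R m₁ : ℕ) : ℝ) + 1) ≤ η := by
    refine le_trans (one_div_le_one_div_of_le (by positivity) ?_) hm₁.le
    have : (m₁ : ℝ) ≤ ((max R m₁ : ℕ) : ℝ) := by exact_mod_cast le_max_right _ _
    linarith
  refine ⟨max R m₁, fun θ hθ => ?_⟩
  refine dimH_map π _ (fun T => General n R η T) θ ε C 1 1 hθ hε.le h ?_
  intro T T' h1 h2 _
  exact general_mono (le_max_left _ _) hmη hη.le h1 h2

/-- **Theorem.** -/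
theorem result (Y : Type) [MetricSpace Y] [MeasurableSpace Y] [BorelSpace Y] (π : ℤ × ℤ × ℤ → Y) :
    ∃ Z : Set Y, dimH Z = 0 ∧ ∀ w, w ∉ Z → ∀ θ D : ℝ, 0 < θ →
      (∀ S : Finset ℕ, ∃ R : ℕ, {t : ℤ × ℤ × ℤ | ∃ B : ℝ, 1 ≤ B ∧ t ∈ ByBases S R B ∧ dist (π t) w ≤ D * B ^ (-θ)}.Finite) ∧
      (∀ n : ℕ, ∃ R : ℕ, 1 ≤ R ∧ ∀ᶠ B : ℝ in atTop, ∀ (a b c x y z : ℤ) (p q r : ℕ), Solution a b c x y z p q r →
        Bases B x y z → Coefficient n (B ^ (1 / (R : ℝ))) a → Coefficient n (B ^ (1 / (R : ℝ))) b →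
          Coefficient n (B ^ (1 / (R : ℝ))) c → (TwoLarge R p q r ∨ OneLarge R p q r) →
            D * B ^ (-θ) < dist (π (a * x ^ p, b * y ^ q, c * z ^ r)) w) := by
  choose Z₁ hZ₁ hz₁ using one Y π
  choose Z₂ hZ₂ hz₂ using two Y π
  refine ⟨(⋃ S, Z₁ S) ∪ ⋃ n, Z₂ n, ?_, fun w hw θ D hθ => ⟨fun S => ?_, fun n => ?_⟩⟩
  · rw [dimH_union, dimH_iUnion, dimH_iUnion]
    simp [hZ₁, hZ₂]
  · obtain ⟨R, h1, h2⟩ := hz₁ S w (fun hh => hw (Or.inl (Set.mem_iUnion.2 ⟨_, hh⟩))) θ D hθ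
    obtain ⟨T₀, hT₀⟩ := eventually_atTop.1 h2
    refine ⟨R, (h1 T₀).subset ?_⟩
    rintro t ⟨B, hB, ht, hd⟩
    rcases le_or_gt T₀ B with hT | hT
    · exact absurd hd (not_le.2 (hT₀ B hT t ht))
    · exact byBases_mono le_rfl hT.le ht
  · obtain ⟨m, hm⟩ := hz₂ n w (fun hh => hw (Or.inr (Set.mem_iUnion.2 ⟨_, hh⟩))) θ D hθ
    refine ⟨m + 1, by omega, ?_⟩
    filter_upwards [hm] with B hB a b c x y z p q r hs hb h1 h2 h3 hl
    have e : (((m + 1 : ℕ) : ℝ)) = (m : ℝ) + 1 := by push_cast; ring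
    rw [e] at h1 h2 h3
    exact hB _ ⟨a, b, c, x, y, z, p, q, r, hs, rfl, h1, h2, h3, hb, large_mono (by omega) hl⟩

end Pool.Agent.Results.MP_be1fae_nt.SolutionsNearGivenPoints
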