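import Pool.Agent.Q84.NX.Fam
import Pool.Agent.Results.MP_be1fae_nt.SolutionsByBases

/-!
# Generalised Fermat equations with `S`-unit coefficients: no solutions related to the primes of a string

Let `S` be a finite set, `0 ≤ θ < 1` and `K` a natural number. There is a number `R` such that for all `κ > 0` and `m`
there is `c' > 0` and for every `Z` a number `D` with the following property. For every large `X` there is a set `T` of
at most `(log X) ^ (49 / 50)` primes, all larger than `Z`, such that for EVERY function `f` with values `1` and `-1` on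
the primes at least `X ^ (1 - κ)` integers `n`, `X < n ≤ 3X`, satisfy: the interval `[n, n + D]` contains at least `m`
primes, and for every prime `p` in it

* the Legendre symbol `(p / q)` is `f q` for all odd primes `q ≤ c' log X` outside `T`;
* there is NO `S`-solution `a x ^ u + b y ^ v = c z ^ w` with `|x|, |y|, |z| ≤ p ^ K` for which `x y z` is divisible by a
  prime `l` within `p ^ θ` of a positive multiple of `p` (for instance by `p`, or by a prime `l`, `|l - p| ≤ p ^ θ`) and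
  two of the exponents are at least `R`, or one of them is at least `R` and all are at least `2`.

Method: the starting result `SolutionsByBases` counts the solutions with bases up to `Y`; the divisor bound; few primes
have a given thin set of numbers near their multiples (`Q84/NX/Core`); the Maynard-Tao theorem relative to a modulus
which is a small power of `X`, in the form that it avoids arbitrary exceptional sets of size `X ^ (1 - η)`
(`Q84/MB/E1-E4`), gives the strings.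
-/

set_option autoImplicit false

open scoped Classical

namespace Pool.Agent.Results.MP_be1fae_nt.StringsOfPrimes

open Finset Filter

/-- an `S`-solution of `a x ^ u + b y ^ v = c z ^ w` -/
def Sol (S : Finset ℕ) (a b c x y z : ℤ) (u v w : ℕ) : Prop :=
  a * x ^ u + b * y ^ v = c * z ^ w ∧ a ≠ 0 ∧ b ≠ 0 ∧ c ≠ 0 ∧ x ≠ 0 ∧ y ≠ 0 ∧ z ≠ 0 ∧ 0 < u ∧ 0 < v ∧ 0 < w ∧
    Int.gcd (a * x) (Int.gcd (b * y) (c * z)) = 1 ∧ ∀ l : ℕ, l.Prime → (l : ℤ) ∣ a * b * c → l ∈ S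

/-- two of the exponents are at least `R`, or one of them is at least `R` and all are at least `2` -/
def Large (R u v w : ℕ) : Prop :=
  (R ≤ u ∧ R ≤ v) ∨ (R ≤ u ∧ R ≤ w) ∨ (R ≤ v ∧ R ≤ w) ∨ (2 ≤ u ∧ 2 ≤ v ∧ 2 ≤ w ∧ (R ≤ u ∨ R ≤ v ∨ R ≤ w))

/-- no solution with bases up to `p ^ K` such that `x y z` is divisible by a prime near a multiple of `p` -/
def NoSol (S : Finset ℕ) (R K : ℕ) (θ : ℝ) (p : ℕ) : Prop :=
  ∀ (a b c x y z : ℤ) (u v w k l : ℕ), Sol S a b c x y z u v w → Large R u v w →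
    |x| ≤ (p : ℤ) ^ K → |y| ≤ (p : ℤ) ^ K → |z| ≤ (p : ℤ) ^ K → l.Prime → 1 ≤ k → |(l : ℝ) - k * p| ≤ (p : ℝ) ^ θ →
    ¬ (l : ℤ) ∣ x * y * z

/-- **Theorem.** -/
theorem result (S : Finset ℕ) (K : ℕ) (θ : ℝ) (hθ : 0 ≤ θ) (hθ1 : θ < 1) : ∃ R : ℕ,
    ∀ κ : ℝ, 0 < κ → ∀ m : ℕ, ∃ c' : ℝ, 0 < c' ∧
    ∀ Z : ℕ, ∃ D : ℕ, ∃ X₀ : ℝ, ∀ X : ℝ, X₀ ≤ X →
    ∃ T : Finset ℕ, (∀ q ∈ T, q.Prime ∧ Z < q) ∧ (T.card : ℝ) ≤ (Real.log X) ^ (49 / 50 : ℝ) ∧
    ∀ f : ℕ → ℤ, (∀ q, f q = 1 ∨ f q = -1) →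
      X ^ (1 - κ) ≤ (((Icc 1 ⌊3 * X⌋₊).filter fun n : ℕ => X < n ∧
        m ≤ ((Icc n (n + D)).filter Nat.Prime).card ∧
        ∀ p ∈ Icc n (n + D), p.Prime → NoSol S R K θ p ∧
          ∀ q : ℕ, q.Prime → q ≠ 2 → (q : ℝ) ≤ c' * Real.log X → q ∉ T → jacobiSym p q = f q).card : ℝ) := by
  obtain ⟨s, hs⟩ : ∃ s, s = 1 - θ := ⟨_, rfl⟩
  have hs0 : 0 < s := by rw [hs]; linarith
  have hK : (0 : ℝ) < K + 1 := by positivity
  obtain ⟨ε, hε⟩ : ∃ ε, ε = s / (4 * (K + 1)) := ⟨_, rfl⟩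
  have hε0 : 0 < ε := by rw [hε]; positivity
  obtain ⟨ε', hε'⟩ : ∃ ε', ε' = s / (12 * (K + 1)) := ⟨_, rfl⟩
  have hε'0 : 0 < ε' := by rw [hε']; positivity
  have hKε : K * ε ≤ s / 4 := by
    have : (K + 1) * ε = s / 4 := by rw [hε]; field_simp
    linarith
  have hKε' : 3 * K * ε' ≤ s / 4 := by
    have : 3 * (K + 1) * ε' = s / 4 := by rw [hε']; field_simp; norm_num
    linarith
  obtain ⟨R, C, hC, hR⟩ := SolutionsByBases.result.2.2 S ε hε0
  obtain ⟨C₂, hC₂, hdiv⟩ := Pool.Agent.H510R2.divisor_bound ε' hε'0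
  refine ⟨R, fun κ hκ m => Pool.Agent.Q84.NX.strings_of (NoSol S R K θ) (s / 4) (by positivity) ?_ κ hκ m⟩
  obtain ⟨M, hM⟩ : ∃ M, M = ∑ l ∈ S, l := ⟨_, rfl⟩
  have hSM : ∀ l ∈ S, l ≤ M := fun l hl => by rw [hM]; exact single_le_sum (fun i _ => Nat.zero_le i) hl
  filter_upwards [(tendsto_rpow_atTop (by positivity : (0 : ℝ) < s / 4)).eventually_ge_atTop
    ((3 * K + 1) * (C * C₂ * 3 * 4)), eventually_gt_atTop ((5 : ℝ) ^ (3 * K + 1)),
    (tendsto_rpow_atTop hs0).eventually_ge_atTop 8, eventually_ge_atTop (2 * (M : ℝ) + 8)] with X hX1 hX5 hXs hXM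
  have hM0 : (0 : ℝ) ≤ M := Nat.cast_nonneg _
  have hX8 : 8 ≤ X := by linarith
  have hX0 : 0 < X := by linarith
  obtain ⟨N, hN⟩ : ∃ N, N = ⌊(5 * X) ^ (3 * K + 1)⌋₊ := ⟨_, rfl⟩
  have hNle : (N : ℝ) ≤ (5 * X) ^ (3 * K + 1) := by rw [hN]; exact Nat.floor_le (by positivity)
  have hNX : (N : ℝ) < X ^ (3 * K + 2) := by
    refine hNle.trans_lt ?_
    rw [mul_pow, pow_succ X (3 * K + 1), mul_comm (X ^ (3 * K + 1)) X]
    exact mul_lt_mul_of_pos_right hX5 (by positivity)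
  obtain ⟨V, hV⟩ : ∃ V, V = ⌊(4 * X) ^ θ⌋₊ := ⟨_, rfl⟩
  have hVle : (V : ℝ) ≤ (4 * X) ^ θ := by rw [hV]; exact Nat.floor_le (by positivity)
  have h4θ : 1 ≤ (4 * X) ^ θ := Real.one_le_rpow (by linarith) hθ
  obtain ⟨Y, hY⟩ : ∃ Y : ℝ, Y = (4 * X) ^ K := ⟨_, rfl⟩
  have hY1 : 1 ≤ Y := by rw [hY]; exact one_le_pow₀ (by linarith)
  obtain ⟨hfin, hcard⟩ := hR Y hY1
  -- the exceptional primes
  obtain ⟨W, hW⟩ : ∃ W : Finset (ℤ × ℤ × ℤ), W = hfin.toFinset := ⟨_, rfl⟩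
  have hWc : (W.card : ℝ) ≤ C * Y ^ ε := by
    refine le_trans (le_of_eq ?_) hcard
    rw [hW, Set.ncard_eq_toFinset_card _ hfin]
  have hrep : ∀ t ∈ W, ∃ d : ℕ, 1 ≤ d ∧ (d : ℝ) ≤ Y ^ 3 ∧
      ∀ l : ℕ, l.Prime → l ∉ S → (l : ℤ) ∣ t.1 * t.2.1 * t.2.2 → l ∣ d := by
    intro t ht
    rw [hW, Set.Finite.mem_toFinset] at ht
    obtain ⟨a, b, c, x, y, z, u, v, w, h1, h2, h3, -, h4⟩ := ht
    obtain ⟨h5, ha, hb, hc, hx, hy, hz, hu, hv, hw, -⟩ := h1
    obtain ⟨hx', hy', hz'⟩ := h4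
    refine ⟨(x * y * z).natAbs, Int.natAbs_pos.2 (mul_ne_zero (mul_ne_zero hx hy) hz), ?_, ?_⟩
    · rw [Nat.cast_natAbs]
      push_cast
      rw [abs_mul, abs_mul]
      calc |(x : ℝ)| * |(y : ℝ)| * |(z : ℝ)| ≤ Y * Y * Y := by gcongr
        _ = Y ^ 3 := by ring
    · intro l hl hlS hlt
      have hl' : Prime (l : ℤ) := Nat.prime_iff_prime_int.1 hl
      rw [h2] at hlt
      have h6 : ¬ (l : ℤ) ∣ a * b * c := fun h => hlS (h3 l hl h)
      have h7 : (l : ℤ) ∣ x * y * z := by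
        simp only at hlt
        rcases hl'.dvd_or_dvd hlt with h | h
        · rcases hl'.dvd_or_dvd h with h | h
          · rcases hl'.dvd_or_dvd h with h | h
            · exact absurd (Dvd.dvd.mul_right (Dvd.dvd.mul_right h b) c) h6
            · exact Dvd.dvd.mul_right (Dvd.dvd.mul_right (hl'.dvd_of_dvd_pow h) y) z
          · rcases hl'.dvd_or_dvd h with h | h
            · exact absurd (Dvd.dvd.mul_right (Dvd.dvd.mul_left h a) c) h6
            · exact Dvd.dvd.mul_right (Dvd.dvd.mul_left (hl'.dvd_of_dvd_pow h) x) z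
        · rcases hl'.dvd_or_dvd h with h | h
          · exact absurd (Dvd.dvd.mul_left h (a * b)) h6
          · exact Dvd.dvd.mul_left (hl'.dvd_of_dvd_pow h) (x * y)
      exact Int.natCast_dvd.1 h7
  choose! d hd1 hd2 hd3 using hrep
  obtain ⟨E, hE⟩ : ∃ E : ℕ → Prop, E = fun l => ∃ t ∈ W, l ∣ d t := ⟨_, rfl⟩
  have hcore := Pool.Agent.Q84.NX.near_core E (3 * K) N V X (by linarith) hNX ⌊4 * X⌋₊
  have hEc : (((range (N + 1)).filter E).card : ℝ) ≤ C * C₂ * (4 * X) ^ (s / 2) := by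
    have hsub : (range (N + 1)).filter E ⊆ W.biUnion fun t => (d t).divisors := by
      intro b hb
      rw [mem_filter, hE] at hb
      obtain ⟨-, t, ht, hbt⟩ := hb
      rw [mem_biUnion]
      exact ⟨t, ht, Nat.mem_divisors.2 ⟨hbt, by have := hd1 t ht; omega⟩⟩
    calc (((range (N + 1)).filter E).card : ℝ) ≤ ∑ t ∈ W, ((d t).divisors.card : ℝ) := by
          have := (card_le_card hsub).trans card_biUnion_le
          exact_mod_cast this
      _ ≤ ∑ _t ∈ W, C₂ * Y ^ (3 * ε') := by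
          refine sum_le_sum fun t ht => (hdiv (d t) (hd1 t ht)).trans ?_
          apply mul_le_mul_of_nonneg_left _ hC₂.le
          rw [Real.rpow_mul (by linarith)]
          apply Real.rpow_le_rpow (Nat.cast_nonneg _) _ hε'0.le
          have : Y ^ (3 : ℝ) = Y ^ 3 := by
            rw [show (3 : ℝ) = ((3 : ℕ) : ℝ) by norm_num, Real.rpow_natCast]
          rw [this]
          exact hd2 t ht
      _ = W.card * (C₂ * Y ^ (3 * ε')) := by rw [sum_const, nsmul_eq_mul]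
      _ ≤ (C * Y ^ ε) * (C₂ * Y ^ (3 * ε')) := mul_le_mul_of_nonneg_right hWc (by positivity)
      _ = C * C₂ * (Y ^ ε * Y ^ (3 * ε')) := by ring
      _ = C * C₂ * (4 * X) ^ (K * ε + 3 * K * ε') := by
          rw [← Real.rpow_add (by linarith), hY, ← Real.rpow_natCast (4 * X) K, ← Real.rpow_mul (by positivity)]
          congr 2
          ring
      _ ≤ C * C₂ * (4 * X) ^ (s / 2) := by
          apply mul_le_mul_of_nonneg_left _ (by positivity)
          exact Real.rpow_le_rpow_of_exponent_le (by linarith) (by linarith)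
  have hsub : ((Icc 1 ⌊4 * X⌋₊).filter fun p : ℕ => p.Prime ∧ X < p ∧ ¬ NoSol S R K θ p) ⊆
      (Icc 1 ⌊4 * X⌋₊).filter fun p : ℕ => p.Prime ∧ X < p ∧
        ∃ n b : ℕ, 1 ≤ n ∧ n ≤ N ∧ p ∣ n ∧ b ≤ N ∧ E b ∧ n ≤ b + V ∧ b ≤ n + V := by
    intro p hp
    rw [mem_filter, mem_Icc] at hp ⊢
    obtain ⟨hp14, hpp, hXp, hg⟩ := hp
    have hp4 : (p : ℝ) ≤ 4 * X := (Nat.le_floor_iff (by linarith)).1 hp14.2
    have hpr0 : (0 : ℝ) < p := by linarith
    have hpr1 : (1 : ℝ) ≤ p := by linarith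
    refine ⟨hp14, hpp, hXp, ?_⟩
    unfold NoSol at hg
    push Not at hg
    obtain ⟨a, b, c, x, y, z, u, v, w, k, l, hsol, hlarge, hx, hy, hz, hl, hk1, hkl, hdvd⟩ := hg
    have hpθ : (p : ℝ) ^ θ ≤ (4 * X) ^ θ := Real.rpow_le_rpow hpr0.le hp4 hθ
    have hpKY : ((p : ℝ)) ^ K ≤ Y := by rw [hY]; exact pow_le_pow_left₀ hpr0.le hp4 K
    have hbd : ∀ x : ℤ, |x| ≤ (p : ℤ) ^ K → |(x : ℝ)| ≤ Y := by
      intro x hx
      refine le_trans ?_ hpKY
      exact_mod_cast hx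
    obtain ⟨h1, ha, hb, hc, hx0, hy0, hz0, hu, hv, hw, hgcd, hS⟩ := hsol
    have ht : (a * x ^ u, b * y ^ v, c * z ^ w) ∈ W := by
      rw [hW, Set.Finite.mem_toFinset]
      refine ⟨a, b, c, x, y, z, u, v, w, ⟨h1, ha, hb, hc, hx0, hy0, hz0, hu, hv, hw, hgcd⟩, rfl, hS, ?_,
        hbd x hx, hbd y hy, hbd z hz⟩
      rcases hlarge with h | h | h | h
      · exact Or.inl (Or.inl h)
      · exact Or.inl (Or.inr (Or.inl h))
      · exact Or.inl (Or.inr (Or.inr h))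
      · exact Or.inr h
    obtain ⟨h2, h3⟩ := Pool.Agent.Q84.NX.near_nat l k p V ((4 * X) ^ θ) (hkl.trans hpθ) hV
    -- `l` is large
    have h4θX : (4 * X) ^ θ ≤ X / 2 := by
      have h5 : (4 * X) ^ θ * (4 * X) ^ s = 4 * X := by
        rw [← Real.rpow_add (by positivity), hs, show θ + (1 - θ) = 1 by ring, Real.rpow_one]
      have h6 : 8 ≤ (4 * X) ^ s := hXs.trans (Real.rpow_le_rpow hX0.le (by linarith) hs0.le)
      have h7 : (4 * X) ^ θ * 8 ≤ (4 * X) ^ θ * (4 * X) ^ s := mul_le_mul_of_nonneg_left h6 (by positivity)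
      linarith
    have hlX : X / 2 ≤ l := by
      have h5 : (p : ℝ) ≤ k * p := le_mul_of_one_le_left hpr0.le (by exact_mod_cast hk1)
      have h6 := (abs_le.1 (hkl.trans hpθ)).1
      linarith
    have hlS : l ∉ S := by
      intro h
      have h5 : (l : ℝ) ≤ M := by exact_mod_cast hSM l h
      linarith
    have hlr : (l : ℤ) ∣ (a * x ^ u) * (b * y ^ v) * (c * z ^ w) := by
      have hl' : Prime (l : ℤ) := Nat.prime_iff_prime_int.1 hl
      rcases hl'.dvd_or_dvd hdvd with h | h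
      · rcases hl'.dvd_or_dvd h with h | h
        · exact Dvd.dvd.mul_right (Dvd.dvd.mul_right (Dvd.dvd.mul_left (dvd_pow h hu.ne') a) _) _
        · exact Dvd.dvd.mul_right (Dvd.dvd.mul_left (Dvd.dvd.mul_left (dvd_pow h hv.ne') b) _) _
      · exact Dvd.dvd.mul_left (Dvd.dvd.mul_left (dvd_pow h hw.ne') c) _
    have hld := hd3 _ ht l hl hlS hlr
    have hlY : (l : ℝ) ≤ (4 * X) ^ (3 * K) := by
      have h5 : (l : ℝ) ≤ (d (a * x ^ u, b * y ^ v, c * z ^ w) : ℝ) := by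
        exact_mod_cast Nat.le_of_dvd (hd1 _ ht) hld
      refine h5.trans ((hd2 _ ht).trans (le_of_eq ?_))
      rw [hY, ← pow_mul, mul_comm K 3]
    have h45 : (4 * X) ^ (3 * K) + 4 * X ≤ (5 * X) ^ (3 * K + 1) := by
      have h5 : (4 * X) ^ (3 * K) ≤ (5 * X) ^ (3 * K) := pow_le_pow_left₀ (by positivity) (by linarith) _
      have h6 : 1 ≤ (5 * X) ^ (3 * K) := one_le_pow₀ (by linarith)
      have h7 : (5 * X) ^ (3 * K + 1) = (5 * X) ^ (3 * K) * (5 * X) := pow_succ _ _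
      rw [h7]
      nlinarith
    have hlN : l ≤ N := by
      rw [hN]
      refine Nat.le_floor ?_
      linarith
    have hkN : k * p ≤ N := by
      rw [hN]
      refine Nat.le_floor ?_
      have h5 : ((k * p : ℕ) : ℝ) ≤ ((l + V : ℕ) : ℝ) := by exact_mod_cast h2
      push_cast at h5 ⊢
      linarith
    refine ⟨k * p, l, Nat.mul_pos (by omega) hpp.pos, hkN, dvd_mul_left _ _, hlN, ?_, h2, h3⟩
    rw [hE]
    exact ⟨_, ht, hld⟩
  have h1 : (((Icc 1 ⌊4 * X⌋₊).filter fun p : ℕ => p.Prime ∧ X < p ∧ ¬ NoSol S R K θ p).card : ℝ) ≤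
      (3 * K + 1) * ((((range (N + 1)).filter E).card : ℝ) * (2 * V + 1)) := by
    have h2 := (card_le_card hsub).trans hcore
    have h3 : (((Icc 1 ⌊4 * X⌋₊).filter fun p : ℕ => p.Prime ∧ X < p ∧ ¬ NoSol S R K θ p).card : ℝ) ≤
      (((3 * K + 1) * (((range (N + 1)).filter E).card * (2 * V + 1)) : ℕ) : ℝ) := by exact_mod_cast h2
    refine h3.trans (le_of_eq ?_)
    push_cast
    ring
  refine h1.trans ?_
  have hs1 : s ≤ 1 := by rw [hs]; linarith
  calc (3 * K + 1) * ((((range (N + 1)).filter E).card : ℝ) * (2 * V + 1))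
      ≤ (3 * K + 1) * ((C * C₂ * (4 * X) ^ (s / 2)) * (3 * (4 * X) ^ θ)) := by
        apply mul_le_mul_of_nonneg_left _ (by positivity)
        exact mul_le_mul hEc (by linarith) (by positivity) (by positivity)
    _ = (3 * K + 1) * (C * C₂ * 3 * ((4 * X) ^ (s / 2) * (4 * X) ^ θ)) := by ring
    _ = (3 * K + 1) * (C * C₂ * 3 * (4 ^ (1 - s / 2) * X ^ (1 - s / 2))) := by
        rw [← Real.rpow_add (by positivity), ← Real.mul_rpow (by norm_num) hX0.le]
        congr 3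
        rw [hs]
        ring
    _ ≤ (3 * K + 1) * (C * C₂ * 3 * (4 * X ^ (1 - s / 2))) := by
        apply mul_le_mul_of_nonneg_left _ (by positivity)
        apply mul_le_mul_of_nonneg_left _ (by positivity)
        apply mul_le_mul_of_nonneg_right _ (by positivity)
        calc (4 : ℝ) ^ (1 - s / 2) ≤ 4 ^ (1 : ℝ) := Real.rpow_le_rpow_of_exponent_le (by norm_num) (by linarith)
          _ = 4 := Real.rpow_one _
    _ = (3 * K + 1) * (C * C₂ * 3 * 4) * X ^ (1 - s / 2) := by ring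
    _ ≤ X ^ (s / 4) * X ^ (1 - s / 2) := mul_le_mul_of_nonneg_right hX1 (by positivity)
    _ = X ^ (1 - s / 4) := by
        rw [← Real.rpow_add hX0]
        congr 1
        ring

end Pool.Agent.Results.MP_be1fae_nt.StringsOfPrimes
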